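import Pool.Agent.K4H6.GL.Jt3

/-!
# The Gaussian law at all nontrivial zeros, and a criterion for 100 percent simple zeros of Hardy's function

Let `ρ = β + i γ` run over all nontrivial zeros of zeta with `γ > 0`, on or off the critical line, with multiplicities
`m(ρ) ≥ 1`, and let `N(T)` be the number of those with `γ ≤ T`, with multiplicity. Put
`V(ρ) = (log |ζ^(m)(ρ) / m!| - m log log γ + R(ρ)) / √(log log γ / 2)`, where
`R(ρ) = ∑ m(w) log (1 / (|w - ρ| log γ)) ≥ 0` over the other nontrivial zeros `w` with `|w - ρ| ≤ 1 / log γ`, and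
`D(t) = π (N(t) - (t / 2π) log (t / 2π) + t / 2π) / √(log log t / 2)`, the displacement of the zeros at the height `t`.
Unconditionally:

* the pair `(V(ρ), D(γ))` has the law of a pair of independent standard normal variables, over all nontrivial zeros: for
  every set `A` in the plane with a boundary of Gaussian measure zero the number of zeros in `(0, T]`, with multiplicity,
  with `(V(ρ), D(γ)) ∈ A` is `(g(A) + o(1)) N(T)`;
* for every real `a` at most `(1 - Φ(a) + o(1)) N(T)` of the simple real zeros `t ≤ T` of Hardy's function `Z` have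
  `Y(t) = (log |Z'(t)| - log log t) / √(log log t / 2) > a`;
* equivalent are: the normal law for `Y` (for all `a < b` the number of simple zeros of `Z` in `(0, T]` with `a < Y < b`
  is `(Φ(b) - Φ(a) + o(1)) N(T)`); the joint normal law for `(Y, D)`; for every `ε > 0` all but `o(N(T))` nontrivial zeros
  are on the critical line, simple, and at distance at least `exp (-ε √(log log t)) / log t` from every other one.
-/

open Filter Topology Complex

namespace Pool.Agent.Results.MP_6bc78b_nt.GaussianLawAtAllZeros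

/-- the phase `exp (i ϑ(t))`, with `ϑ(t) = arg Γ(1/4 + i t / 2) - (t / 2) log π` -/
noncomputable def phase (t : ℝ) : ℂ :=
  Gamma (1 / 4 + I * t / 2) / ‖Gamma (1 / 4 + I * t / 2)‖ * cexp (-(I * (t / 2) * Real.log Real.pi))

/-- Hardy's function `Z(t) = exp (i ϑ(t)) ζ(1/2 + i t)` -/
noncomputable def Z (t : ℝ) : ℂ := phase t * riemannZeta (1 / 2 + I * t)

/-- the mass of `(a, b)` under the standard normal law -/
noncomputable def normalMass (a b : ℝ) : ℝ := ∫ x in a..b, Real.exp (-x ^ 2 / 2) / Real.sqrt (2 * Real.pi)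

/-- the mass of `(a, ∞)` under the standard normal law -/
noncomputable def normalTail (a : ℝ) : ℝ := ∫ x in Set.Ioi a, Real.exp (-x ^ 2 / 2) / Real.sqrt (2 * Real.pi)

/-- the simple real zeros of `Z` in `(0, T]` -/
def simpleZeros (T : ℝ) : Set ℝ := {t : ℝ | 0 < t ∧ t ≤ T ∧ Z t = 0 ∧ deriv Z t ≠ 0}

/-- the normalised logarithm of `|Z'(t)|` -/
noncomputable def Y (t : ℝ) : ℝ :=
  (Real.log ‖deriv Z t‖ - Real.log (Real.log t)) / Real.sqrt (Real.log (Real.log t) / 2)

/-- the nontrivial zeros of zeta with ordinate in `(0, T]` -/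
def zeros (T : ℝ) : Set ℂ :=
  {s : ℂ | riemannZeta s = 0 ∧ 0 < s.re ∧ s.re < 1 ∧ 0 < s.im ∧ s.im ≤ T}

/-- the number of nontrivial zeros with ordinate in `(0, T]`, counted with multiplicity -/
noncomputable def N (T : ℝ) : ℕ := ∑ᶠ s ∈ zeros T, analyticOrderNatAt riemannZeta s

/-- the nontrivial zeros other than `ρ` within distance `1 / log (Im ρ)` of `ρ` -/
def close (ρ : ℂ) : Set ℂ :=
  {w : ℂ | riemannZeta w = 0 ∧ 0 < w.re ∧ w.re < 1 ∧ w ≠ ρ ∧ ‖w - ρ‖ ≤ 1 / Real.log ρ.im}

/-- the repulsion of `ρ` by the other close zeros; all terms are nonnegative and the sum is finite -/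
noncomputable def repulsion (ρ : ℂ) : ℝ :=
  ∑ᶠ w ∈ close ρ, (analyticOrderNatAt riemannZeta w : ℝ) * Real.log (1 / (‖w - ρ‖ * Real.log ρ.im))

/-- the normalised logarithm of the leading Taylor coefficient of zeta at a zero `ρ` of any multiplicity, with the
repulsion -/
noncomputable def V (ρ : ℂ) : ℝ :=
  (Real.log ‖iteratedDeriv (analyticOrderNatAt riemannZeta ρ) riemannZeta ρ / (analyticOrderNatAt riemannZeta ρ).factorial‖ -
    (analyticOrderNatAt riemannZeta ρ : ℝ) * Real.log (Real.log ρ.im) + repulsion ρ) /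
    Real.sqrt (Real.log (Real.log ρ.im) / 2)

/-- the main term of the Riemann-von Mangoldt formula -/
noncomputable def main (t : ℝ) : ℝ := t / (2 * Real.pi) * Real.log (t / (2 * Real.pi)) - t / (2 * Real.pi)

/-- the normalised displacement of the zeros at the height `t` -/
noncomputable def D (t : ℝ) : ℝ := Real.pi * ((N t : ℝ) - main t) / Real.sqrt (Real.log (Real.log t) / 2)

/-- the law of `x + iy` for a pair `(x, y)` of independent standard normal variables -/
noncomputable def gauss (A : Set ℂ) : ℝ := (ProbabilityTheory.stdGaussian ℂ).real A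

/-- the number of zeros `ρ` in `(0, T]` with `(V(ρ), D(Im ρ)) ∈ A`, counted with multiplicity -/
noncomputable def NV (A : Set ℂ) (T : ℝ) : ℕ :=
  ∑ᶠ s ∈ {s : ℂ | s ∈ zeros T ∧ (⟨V s, D s.im⟩ : ℂ) ∈ A}, analyticOrderNatAt riemannZeta s

/-- the normal law for the derivative: for all `a < b` the number of simple zeros in `(0, T]` with `a < Y < b` is
`(normalMass a b + o(1)) N(T)` -/
def NormalLaw : Prop := ∀ a b : ℝ, a < b → ∀ ε : ℝ, 0 < ε → ∃ T₀ : ℝ, ∀ T : ℝ, T₀ ≤ T →
  |({t : ℝ | t ∈ simpleZeros T ∧ a < Y t ∧ Y t < b}.ncard : ℝ) - normalMass a b * (N T : ℝ)| ≤ ε * (N T : ℝ)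

/-- the joint normal law for the derivative and the displacement: for every set `A` with a boundary of Gaussian measure
zero the number of simple zeros in `(0, T]` with `(Y, D) ∈ A` is `(gauss A + o(1)) N(T)` -/
def JointNormalLaw : Prop := ∀ A : Set ℂ, ProbabilityTheory.stdGaussian ℂ (frontier A) = 0 → ∀ ε : ℝ, 0 < ε →
  ∃ T₀ : ℝ, ∀ T : ℝ, T₀ ≤ T →
    |({t : ℝ | t ∈ simpleZeros T ∧ (⟨Y t, D t⟩ : ℂ) ∈ A}.ncard : ℝ) - gauss A * (N T : ℝ)| ≤ ε * (N T : ℝ)

/-- no other nontrivial zero of zeta has distance less than `exp (-ε √(log log t)) / log t` from `1/2 + i t` -/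
def Isolated (ε t : ℝ) : Prop := ∀ s : ℂ, riemannZeta s = 0 → 0 < s.re → s.re < 1 → s ≠ 1 / 2 + I * t →
  Real.exp (-ε * Real.sqrt (Real.log (Real.log t))) / Real.log t ≤ ‖s - (1 / 2 + I * t)‖

/-- for every `ε > 0` all but `o(N(T))` nontrivial zeros (with multiplicity) are on the critical line, simple and
isolated at the scale `exp (-ε √(log log t)) / log t` -/
def AlmostAllIsolated : Prop := ∀ ε : ℝ, 0 < ε → ∀ δ : ℝ, 0 < δ → ∃ T₀ : ℝ, ∀ T : ℝ, T₀ ≤ T →
  (1 - δ) * (N T : ℝ) ≤ ({t : ℝ | t ∈ simpleZeros T ∧ Isolated ε t}.ncard : ℝ)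

lemma gamma_ne (t : ℝ) : Gamma (1 / 4 + I * t / 2) ≠ 0 := by
  apply Gamma_ne_zero_of_re_pos
  simp

lemma gamma_cont : Continuous fun t : ℝ => Gamma (1 / 4 + I * t / 2) := by
  rw [continuous_iff_continuousAt]
  intro t
  have h1 : ContinuousAt Gamma (1 / 4 + I * t / 2) := by
    refine (differentiableAt_Gamma _ fun m hm => ?_).continuousAt
    have := congrArg Complex.re hm
    simp at this
    have hm0 : (0 : ℝ) ≤ m := Nat.cast_nonneg m
    linarith
  exact ContinuousAt.comp (f := fun t : ℝ => (1 / 4 + I * t / 2 : ℂ)) h1 (by fun_prop)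

lemma phase_cont : Continuous phase := by
  unfold phase
  refine Continuous.mul (gamma_cont.div ?_ ?_) (by fun_prop)
  · exact Complex.continuous_ofReal.comp gamma_cont.norm
  · intro t
    rw [Complex.ofReal_ne_zero]
    exact norm_ne_zero_iff.mpr (gamma_ne t)

lemma phase_ne (t : ℝ) : phase t ≠ 0 := by
  unfold phase
  refine mul_ne_zero (div_ne_zero (gamma_ne t) ?_) (Complex.exp_ne_zero _)
  rw [Complex.ofReal_ne_zero]
  exact norm_ne_zero_iff.mpr (gamma_ne t)

lemma Z_zero_iff (t : ℝ) : Z t = 0 ↔ riemannZeta (1 / 2 + I * t) = 0 := by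
  unfold Z
  rw [mul_eq_zero]
  exact ⟨fun h => h.resolve_left (phase_ne t), Or.inr⟩

lemma zeta_diff (t : ℝ) : DifferentiableAt ℂ riemannZeta (1 / 2 + I * t) := by
  refine differentiableAt_riemannZeta fun h => ?_
  have := congrArg Complex.re h
  norm_num at this

lemma Z_hasDerivAt (t : ℝ) (h : riemannZeta (1 / 2 + I * t) = 0) :
    HasDerivAt Z (phase t * (deriv riemannZeta (1 / 2 + I * t) * I)) t := by
  have hg : HasDerivAt (fun u : ℝ => riemannZeta (1 / 2 + I * u))
      (deriv riemannZeta (1 / 2 + I * t) * I) t := by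
    have h1 : HasDerivAt (fun u : ℝ => (1 / 2 + I * u : ℂ)) I t := by
      have h2 : HasDerivAt (fun u : ℝ => (u : ℂ)) 1 t := Complex.ofRealCLM.hasDerivAt
      simpa using (h2.const_mul I).const_add (1 / 2 : ℂ)
    exact HasDerivAt.comp (h₂ := riemannZeta) t (zeta_diff t).hasDerivAt h1
  rw [hasDerivAt_iff_tendsto_slope] at hg ⊢
  have h3 : Tendsto phase (𝓝[≠] t) (𝓝 (phase t)) :=
    phase_cont.continuousAt.tendsto.mono_left nhdsWithin_le_nhds
  refine (h3.mul hg).congr fun u => ?_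
  have hZ : Z t = 0 := (Z_zero_iff t).mpr h
  rw [slope_def_module, slope_def_module, hZ, h, sub_zero, sub_zero]
  unfold Z
  simp only [Complex.real_smul]
  ring

lemma zeta_analytic {s : ℂ} (hs : s ≠ 1) : AnalyticAt ℂ riemannZeta s := by
  have : DifferentiableOn ℂ riemannZeta ({1}ᶜ : Set ℂ) := fun z hz =>
    (differentiableAt_riemannZeta hz).differentiableWithinAt
  exact this.analyticAt (isOpen_compl_singleton.mem_nhds hs)

lemma half_ne (t : ℝ) : (1 / 2 + I * t : ℂ) ≠ 1 := by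
  intro h
  have := congrArg Complex.re h
  norm_num at this

/-- a zero of `Z` is simple if and only if the corresponding zero of zeta is simple -/
lemma simple_iff {t : ℝ} (h : riemannZeta (1 / 2 + I * t) = 0) :
    deriv Z t ≠ 0 ↔ analyticOrderNatAt riemannZeta (1 / 2 + I * t) = 1 := by
  have ha := zeta_analytic (half_ne t)
  have h3 := ha.analyticOrderAt_deriv_add_one
  simp only [h, sub_zero] at h3
  have h3' : analyticOrderAt (deriv riemannZeta) (1 / 2 + I * t) + 1 = analyticOrderAt riemannZeta (1 / 2 + I * t) := h3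
  rw [(Z_hasDerivAt t h).deriv]
  constructor
  · intro hd
    have hd2 : deriv riemannZeta (1 / 2 + I * t) ≠ 0 := by
      intro h0
      exact hd (by rw [h0, zero_mul, mul_zero])
    have h4 := ha.deriv.analyticOrderAt_eq_zero.mpr hd2
    rw [h4, zero_add] at h3'
    unfold analyticOrderNatAt
    rw [← h3']
    rfl
  · intro h1
    refine mul_ne_zero (phase_ne t) (mul_ne_zero ?_ I_ne_zero)
    have h2 : analyticOrderAt riemannZeta (1 / 2 + I * t) = 1 := by
      unfold analyticOrderNatAt at h1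
      have h3 : analyticOrderAt riemannZeta (1 / 2 + I * t) ≠ ⊤ := by
        intro h4; rw [h4] at h1; simp at h1
      rw [← ENat.natCast_toNat h3, h1]; rfl
    rw [h2] at h3'
    have h4 : analyticOrderAt (deriv riemannZeta) (1 / 2 + I * t) = 0 := by
      revert h3'
      generalize analyticOrderAt (deriv riemannZeta) (1 / 2 + I * t) = x
      intro h3
      cases x with
      | top => simp at h3
      | coe n =>
        have h6 : n + 1 = 1 := by exact_mod_cast h3
        have h7 : n = 0 := by omega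
        rw [h7]; rfl
    exact ha.deriv.analyticOrderAt_eq_zero.mp h4

lemma zeros_eq (T : ℝ) : zeros T = H370.zset riemannZeta 0 T := by
  ext s
  simp only [zeros, H370.zset, Set.mem_ofPred_eq]
  tauto

open Pool.Agent.K4H6.GL

lemma N_eq (T : ℝ) : (N T : ℝ) = cum (fun _ => True) T := by
  have h1 : N T = ∑ s ∈ Z0 T, H370.mult riemannZeta s := by
    unfold N
    rw [zeros_eq, finsum_mem_eq_finite_toFinset_sum _ (H370.zeta_zeros_finite T)]
    rfl
  rw [h1]
  unfold cum
  push_cast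
  refine Finset.sum_congr rfl fun s _ => ?_
  rw [ind_pos (p := fun _ => True) trivial]

lemma phase_norm (t : ℝ) : ‖phase t‖ = 1 := by
  unfold phase
  rw [norm_mul, norm_div, Complex.norm_real, norm_norm, div_self (norm_ne_zero_iff.mpr (gamma_ne t)),
    Complex.norm_exp, one_mul]
  have : (-(I * ((t : ℂ) / 2) * (Real.log Real.pi : ℂ))).re = 0 := by
    have e : -(I * ((t : ℂ) / 2) * (Real.log Real.pi : ℂ)) = ((-(t / 2 * Real.log Real.pi) : ℝ) : ℂ) * I := by
      push_cast; ring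
    rw [e]
    simp
  rw [this, Real.exp_zero]

lemma half_eq {s : ℂ} (h : s.re = 1 / 2) : (1 / 2 + I * s.im : ℂ) = s := by
  apply Complex.ext
  · simp [h]
  · simp

/-- counting simple zeros of `Z` and of zeta -/
lemma count (q : ℂ → Prop) (q' : ℝ → Prop)
    (h : ∀ t : ℝ, Z t = 0 → (q' t ↔ q (1 / 2 + I * t))) (T : ℝ) :
    ({t : ℝ | t ∈ simpleZeros T ∧ q' t}.ncard : ℝ) = cum (fun s => sc s ∧ q s) T := by
  classical
  have e1 : cum (fun s => sc s ∧ q s) T = (((Z0 T).filter (fun s => sc s ∧ q s)).card : ℝ) := by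
    unfold cum
    rw [Finset.card_filter]
    push_cast
    refine Finset.sum_congr rfl fun s _ => ?_
    by_cases hs : sc s ∧ q s
    · rw [ind_pos (p := fun s => sc s ∧ q s) hs, if_pos hs, hs.1.2]
      norm_num
    · rw [ind_neg (p := fun s => sc s ∧ q s) hs, if_neg hs]
  rw [e1, ← Set.ncard_coe_finset]
  congr 1
  refine Set.ncard_congr (fun t _ => (1 / 2 + I * t : ℂ)) ?_ ?_ ?_
  · rintro t ⟨⟨h1, h2, h3, h4⟩, h5⟩
    have hz := (Z_zero_iff t).1 h3
    rw [Finset.mem_coe, Finset.mem_filter, mem_Z0]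
    refine ⟨⟨by simp, ?_, by simpa using h1, by simpa using h2, hz⟩, ⟨by simp, ?_⟩, (h t h3).1 h5⟩
    · simp
      norm_num
    · exact (simple_iff hz).1 h4
  · intro t t' _ _ h
    have := congrArg Complex.im h
    simpa using this
  · intro s hs
    rw [Finset.mem_coe, Finset.mem_filter, mem_Z0] at hs
    obtain ⟨⟨h1, h2, h3, h4, h5⟩, ⟨h6, h7⟩, h8⟩ := hs
    have hs := half_eq h6
    have hz : riemannZeta (1 / 2 + I * (s.im : ℂ)) = 0 := by rw [hs]; exact h5
    have hZ := (Z_zero_iff s.im).2 hz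
    refine ⟨s.im, ⟨⟨h3, h4, hZ, (simple_iff hz).2 (by rw [hs]; exact h7)⟩, (h s.im hZ).2 (by rw [hs]; exact h8)⟩, hs⟩

lemma Y_eq {t : ℝ} (h : Z t = 0) : Y t = YC (1 / 2 + I * t) := by
  have hz := (Z_zero_iff t).1 h
  unfold Y YC Pool.Agent.Y745.SW.nrm
  have hn : ‖deriv Z t‖ = ‖deriv riemannZeta (1 / 2 + I * t)‖ := by
    rw [(Z_hasDerivAt t hz).deriv, norm_mul, norm_mul, phase_norm, Complex.norm_I, one_mul, mul_one]
  have hi : (1 / 2 + I * (t : ℂ)).im = t := by simp
  rw [hn, hi, Real.sqrt_div' _ (by norm_num : (0:ℝ) ≤ 2), div_div_eq_mul_div]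
  ring

lemma iso_eq (ε t : ℝ) : Isolated ε t ↔ isoC ε (1 / 2 + I * t) := by
  unfold Isolated isoC
  have hi : (1 / 2 + I * (t : ℂ)).im = t := by simp
  rw [hi]

lemma law_eq : NormalLaw ↔ LawC := by
  unfold NormalLaw LawC
  refine forall_congr' fun a => forall_congr' fun b => forall_congr' fun hab => forall_congr' fun ε =>
    forall_congr' fun hε => ?_
  rw [Filter.eventually_atTop]
  refine exists_congr fun T₀ => forall_congr' fun T => forall_congr' fun hT => ?_
  rw [count (fun s => a < YC s ∧ YC s < b) (fun t => a < Y t ∧ Y t < b) (fun t ht => by rw [Y_eq ht]) T, N_eq]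
  rfl

lemma compl_cum (q : ℂ → Prop) (T : ℝ) : cum (fun s => ¬ q s) T = cum (fun _ => True) T - cum q T := by
  unfold cum
  rw [← Finset.sum_sub_distrib]
  refine Finset.sum_congr rfl fun s _ => ?_
  rw [ind_pos (p := fun _ => True) trivial]
  by_cases hs : q s
  · rw [ind_neg (p := fun s => ¬ q s) (not_not.2 hs), ind_pos hs, sub_self]
  · rw [ind_pos (p := fun s => ¬ q s) hs, ind_neg hs, sub_zero]

lemma isolated_eq : AlmostAllIsolated ↔ IsoC := by
  unfold AlmostAllIsolated IsoC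
  refine forall_congr' fun ε => forall_congr' fun hε => forall_congr' fun δ => forall_congr' fun hδ => ?_
  rw [Filter.eventually_atTop]
  refine exists_congr fun T₀ => forall_congr' fun T => forall_congr' fun hT => ?_
  rw [count (fun s => isoC ε s) (fun t => Isolated ε t) (fun t _ => iso_eq ε t) T, N_eq, compl_cum]
  constructor <;> intro h <;> linarith

lemma lead_iter {f : ℂ → ℂ} {s : ℂ} (ha : AnalyticAt ℂ f s) (hfin : analyticOrderAt f s ≠ ⊤) :
    meromorphicTrailingCoeffAt f s =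
      iteratedDeriv (analyticOrderNatAt f s) f s / (analyticOrderNatAt f s).factorial := by
  obtain ⟨g, hg, hgs, he⟩ := (ha.analyticOrderAt_ne_top).1 hfin
  set n := analyticOrderNatAt f s with hn
  have h1 : meromorphicTrailingCoeffAt f s = g s := by
    refine AnalyticAt.meromorphicTrailingCoeffAt_of_ne_zero_of_eq_nhdsNE (n := (n : ℤ)) hg hgs ?_
    filter_upwards [nhdsWithin_le_nhds he] with z hz
    rw [hz, zpow_natCast]
  have h2 : iteratedDeriv n f s = n.factorial * g s := by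
    have h3 : f =ᶠ[𝓝 s] fun z => (z - s) ^ n * g z := by
      filter_upwards [he] with z hz
      rw [hz, smul_eq_mul]
    rw [h3.iteratedDeriv_eq n, iteratedDeriv_fun_mul (AnalyticAt.contDiffAt (by fun_prop)) hg.contDiffAt]
    have h4 : ∀ i, iteratedDeriv i (fun z : ℂ => (z - s) ^ n) s = if i = n then (n.factorial : ℂ) else 0 := by
      intro i
      have h5 := congrFun (iteratedDeriv_comp_sub_const (𝕜 := ℂ) i (fun z : ℂ => z ^ n) s) s
      rw [h5]
      beta_reduce
      rw [sub_self, iteratedDeriv_fun_pow_zero]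
      split_ifs <;> simp
    rw [Finset.sum_eq_single n]
    · rw [h4 n, if_pos rfl, Nat.choose_self, Nat.sub_self, iteratedDeriv_zero]
      push_cast
      ring
    · intro i _ hi
      rw [h4 i, if_neg hi, mul_zero, zero_mul]
    · intro h
      exact absurd (Finset.mem_range.2 (Nat.lt_succ_self n)) h
  rw [h1, h2, mul_div_cancel_left₀]
  exact_mod_cast n.factorial_ne_zero

lemma V_eq {T : ℝ} {s : ℂ} (hs : s ∈ zeros T) : V s = VV s := by
  obtain ⟨h1, h2, h3, h4, h5⟩ := hs
  have hs1 : s ≠ 1 := by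
    rintro rfl
    simp at h4
  have hm := H370.Loc.mult_pos' H370.good_zeta h4 h1
  have hfin : analyticOrderAt riemannZeta s ≠ ⊤ := by
    intro h
    unfold H370.mult analyticOrderNatAt at hm
    rw [h] at hm
    simp at hm
  unfold V VV Gg
  rw [lead_iter (zeta_analytic hs1) hfin]
  rfl

/-- the number of the zeros up to height `1` -/
noncomputable def c0 : ℝ := (H370.NN riemannZeta 0 1 : ℝ)

lemma NN_zero {t : ℝ} (ht : 1 ≤ t) :
    H370.NN riemannZeta 0 t = H370.NN riemannZeta 0 1 + H370.NN riemannZeta 1 t := by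
  classical
  have f0 : (H370.zset riemannZeta 0 t).Finite := H370.zeta_zeros_finite t
  have f1 : (H370.zset riemannZeta 0 1).Finite := H370.zeta_zeros_finite 1
  have f2 : (H370.zset riemannZeta 1 t).Finite := f0.subset fun s hs =>
    ⟨hs.1, hs.2.1, lt_trans one_pos hs.2.2.1, hs.2.2.2.1, hs.2.2.2.2⟩
  have hu : H370.zset riemannZeta 0 t = H370.zset riemannZeta 0 1 ∪ H370.zset riemannZeta 1 t := by
    ext s
    constructor
    · rintro ⟨h1, h2, h3, h4, h5⟩
      by_cases h : s.im ≤ 1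
      · exact Or.inl ⟨h1, h2, h3, h, h5⟩
      · push Not at h
        exact Or.inr ⟨h1, h2, h, h4, h5⟩
    · rintro (⟨h1, h2, h3, h4, h5⟩ | ⟨h1, h2, h3, h4, h5⟩)
      · exact ⟨h1, h2, h3, h4.trans ht, h5⟩
      · exact ⟨h1, h2, lt_trans one_pos h3, h4, h5⟩
  have hd : Disjoint (H370.zset riemannZeta 0 1) (H370.zset riemannZeta 1 t) := by
    rw [Set.disjoint_left]
    intro s hs hs'
    exact absurd hs.2.2.2.1 (not_le.2 hs'.2.2.1)
  unfold H370.NN
  rw [hu, finsum_mem_union hd f1 f2]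

lemma N_NN (T : ℝ) : N T = H370.NN riemannZeta 0 T := by
  unfold N
  rw [zeros_eq]
  rfl

lemma D_eq {t : ℝ} (ht : 1 ≤ t) : D t = dsp c0 t := by
  have e : Pool.Agent.K4H8.JG.E1 t + c0 = (N t : ℝ) - main t := by
    rw [N_NN, NN_zero ht]
    unfold Pool.Agent.K4H8.JG.E1 Pool.Agent.K4H8.JG.Em main c0
    push_cast
    ring
  unfold D dsp
  rw [e, Real.sqrt_div' _ (by norm_num : (0:ℝ) ≤ 2), div_div_eq_mul_div]
  ring

lemma pair_WW {T : ℝ} (hT : 1 ≤ T) {s : ℂ} (hs : s ∈ Zb T) : (⟨V s, D s.im⟩ : ℂ) = WW c0 s := by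
  have h := (mem_Zb hT).1 hs
  have hz : s ∈ zeros (2 * T) := ⟨h.2.2.2.2, h.1, h.2.1, by linarith [h.2.2.1], h.2.2.2.1⟩
  unfold WW
  rw [V_eq hz, D_eq (by linarith [h.2.2.1])]

lemma pair_YD {T : ℝ} (hT : 1 ≤ T) {s : ℂ} (hs : s ∈ Zb T) : (⟨YC s, D s.im⟩ : ℂ) = YD c0 s := by
  have h := (mem_Zb hT).1 hs
  unfold YD
  rw [D_eq (by linarith [h.2.2.1])]

lemma NV_eq (A : Set ℂ) (T : ℝ) : (NV A T : ℝ) = cum (fun s => (⟨V s, D s.im⟩ : ℂ) ∈ A) T := by
  classical
  have h1 : {s : ℂ | s ∈ zeros T ∧ (⟨V s, D s.im⟩ : ℂ) ∈ A} =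
      (((Z0 T).filter (fun s => (⟨V s, D s.im⟩ : ℂ) ∈ A) : Finset ℂ) : Set ℂ) := by
    ext s
    rw [Finset.mem_coe, Finset.mem_filter, mem_Z0, ← zeros_eq]
    rfl
  unfold NV
  rw [h1, finsum_mem_coe_finset]
  push_cast
  unfold cum
  rw [Finset.sum_filter]
  refine Finset.sum_congr rfl fun s _ => ?_
  by_cases hs : (⟨V s, D s.im⟩ : ℂ) ∈ A
  · rw [ind_pos (p := fun s => (⟨V s, D s.im⟩ : ℂ) ∈ A) hs, if_pos hs]
    rfl
  · rw [ind_neg (p := fun s => (⟨V s, D s.im⟩ : ℂ) ∈ A) hs, if_neg hs]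

lemma joint_eq : JointNormalLaw ↔ Law2G (fun s => ⟨YC s, D s.im⟩) := by
  unfold JointNormalLaw Law2G
  refine forall_congr' fun A => forall_congr' fun hA => forall_congr' fun ε => forall_congr' fun hε => ?_
  rw [Filter.eventually_atTop]
  refine exists_congr fun T₀ => forall_congr' fun T => forall_congr' fun hT => ?_
  rw [count (fun s => (⟨YC s, D s.im⟩ : ℂ) ∈ A) (fun t => (⟨Y t, D t⟩ : ℂ) ∈ A) (fun t ht => by
    have hi : (1 / 2 + I * (t : ℂ)).im = t := by simp
    rw [Y_eq ht, hi]) T, N_eq]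
  rfl

theorem result :
    (∀ A : Set ℂ, ProbabilityTheory.stdGaussian ℂ (frontier A) = 0 → ∀ ε : ℝ, 0 < ε → ∃ T₀ : ℝ, ∀ T : ℝ, T₀ ≤ T →
      |(NV A T : ℝ) - gauss A * (N T : ℝ)| ≤ ε * (N T : ℝ)) ∧
    (∀ a : ℝ, ∀ ε : ℝ, 0 < ε → ∃ T₀ : ℝ, ∀ T : ℝ, T₀ ≤ T →
      ({t : ℝ | t ∈ simpleZeros T ∧ a < Y t}.ncard : ℝ) ≤ (normalTail a + ε) * (N T : ℝ)) ∧
    [NormalLaw, JointNormalLaw, AlmostAllIsolated].TFAE := by
  refine ⟨?_, ?_, ?_⟩
  · intro A hA ε hε
    obtain ⟨T₀, hT₀⟩ := Filter.eventually_atTop.1 (lawG (g := fun s => ⟨V s, D s.im⟩) (c0 := c0)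
      (fun T hT s hs => pair_WW hT hs) A hA ε hε)
    refine ⟨T₀, fun T hT => ?_⟩
    rw [NV_eq, N_eq]
    exact hT₀ T hT
  · intro a ε hε
    obtain ⟨T₀, hT₀⟩ := Filter.eventually_atTop.1 (upperC a ε hε)
    refine ⟨T₀, fun T hT => ?_⟩
    rw [count (fun s => a < YC s) (fun t => a < Y t) (fun t ht => by rw [Y_eq ht]) T, N_eq]
    exact hT₀ T hT
  · rw [law_eq, joint_eq, isolated_eq]
    exact criterionG (c0 := c0) fun T hT s hs => pair_YD hT hs

end Pool.Agent.Results.MP_6bc78b_nt.GaussianLawAtAllZeros
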