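import Pool.Agent.K4H8.JG.Fin

/-!
# The joint law of the derivative and of the displacement at the simple zeros of Hardy's function

Unconditionally, for every open set `U` in the plane and every `ε > 0` there is a `δ > 0` such that, for all large `T`,
at least `((3/2 - cot (1/√2) / √2) · g (U) - ε) N(T)` of the zeros `t` of `Z` in `(0, T]` are simple, have distance at
least `δ / log t` from every other nontrivial zero of zeta, and satisfy `(X(t), Y(t)) ∈ U`, where
`X(t) = (log |Z'(t)| - log log t) / √(log log t / 2)` and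
`Y(t) = π (N(t) - (t / 2π) log (t / 2π) + t / 2π) / √(log log t / 2)`.
Here `g` is the law of a pair of independent standard normal variables, `N(T)` counts all nontrivial zeros of zeta with
ordinate in `(0, T]`, with multiplicity, and `3/2 - cot (1/√2) / √2 = 0.6725…`.
-/

open Filter Topology Complex

namespace Pool.Agent.Results.MP_6bc78b_nt.JointLaw

/-- the phase `exp (i ϑ(t))`, with `ϑ(t) = arg Γ(1/4 + i t / 2) - (t / 2) log π` -/
noncomputable def phase (t : ℝ) : ℂ :=
  Gamma (1 / 4 + I * t / 2) / ‖Gamma (1 / 4 + I * t / 2)‖ * cexp (-(I * (t / 2) * Real.log Real.pi))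

/-- Hardy's function `Z(t) = exp (i ϑ(t)) ζ(1/2 + i t)` -/
noncomputable def Z (t : ℝ) : ℂ := phase t * riemannZeta (1 / 2 + I * t)

/-- the nontrivial zeros of zeta with ordinate in `(0, T]` -/
def zeros (T : ℝ) : Set ℂ :=
  {s : ℂ | riemannZeta s = 0 ∧ 0 < s.re ∧ s.re < 1 ∧ 0 < s.im ∧ s.im ≤ T}

/-- the number of nontrivial zeros with ordinate in `(0, T]`, counted with multiplicity -/
noncomputable def N (T : ℝ) : ℕ := ∑ᶠ s ∈ zeros T, analyticOrderNatAt riemannZeta s

/-- the normalised logarithm of `|Z'(t)|` -/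
noncomputable def X (t : ℝ) : ℝ :=
  (Real.log ‖deriv Z t‖ - Real.log (Real.log t)) / Real.sqrt (Real.log (Real.log t) / 2)

/-- the main term of the Riemann-von Mangoldt formula -/
noncomputable def main (t : ℝ) : ℝ := t / (2 * Real.pi) * Real.log (t / (2 * Real.pi)) - t / (2 * Real.pi)

/-- the normalised remainder term of the Riemann-von Mangoldt formula -/
noncomputable def Y (t : ℝ) : ℝ :=
  Real.pi * ((N t : ℝ) - main t) / Real.sqrt (Real.log (Real.log t) / 2)

/-- the real zeros `t` of `Z` in `(0, T]` that are simple, that have distance at least `δ / log t` from all other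
nontrivial zeros of zeta (on or off the critical line), and at which the pair `(X(t), Y(t))` lies in `U` -/
def goodZeros (U : Set ℂ) (δ T : ℝ) : Set ℝ :=
  {t : ℝ | 0 < t ∧ t ≤ T ∧ Z t = 0 ∧ deriv Z t ≠ 0 ∧
    (∀ s : ℂ, riemannZeta s = 0 → 0 < s.re → s.re < 1 → s ≠ 1 / 2 + I * t →
      δ / Real.log t ≤ ‖s - (1 / 2 + I * t)‖) ∧
    (⟨X t, Y t⟩ : ℂ) ∈ U}

/-- the law of `x + iy` for a pair `(x, y)` of independent standard normal variables -/
noncomputable def gauss (U : Set ℂ) : ℝ := (ProbabilityTheory.stdGaussian ℂ).real U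

lemma gamma_ne (t : ℝ) : Gamma (1 / 4 + I * t / 2) ≠ 0 := by
  apply Gamma_ne_zero_of_re_pos
  simp

lemma gamma_cont : Continuous fun t : ℝ => Gamma (1 / 4 + I * t / 2) := by
  rw [continuous_iff_continuousAt]
  intro t
  have h1 : ContinuousAt Gamma (1 / 4 + I * t / 2) := by
    refine (differentiableAt_Gamma _ fun m hm => ?_).continuousAt
    have := congrArg Complex.re hm
    simp at this
    have hm0 : (0 : ℝ) ≤ m := Nat.cast_nonneg m
    linarith
  exact ContinuousAt.comp (f := fun t : ℝ => (1 / 4 + I * t / 2 : ℂ)) h1 (by fun_prop)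

lemma phase_cont : Continuous phase := by
  unfold phase
  refine Continuous.mul (gamma_cont.div ?_ ?_) (by fun_prop)
  · exact Complex.continuous_ofReal.comp gamma_cont.norm
  · intro t
    rw [Complex.ofReal_ne_zero]
    exact norm_ne_zero_iff.mpr (gamma_ne t)

lemma phase_ne (t : ℝ) : phase t ≠ 0 := by
  unfold phase
  refine mul_ne_zero (div_ne_zero (gamma_ne t) ?_) (Complex.exp_ne_zero _)
  rw [Complex.ofReal_ne_zero]
  exact norm_ne_zero_iff.mpr (gamma_ne t)

lemma Z_zero_iff (t : ℝ) : Z t = 0 ↔ riemannZeta (1 / 2 + I * t) = 0 := by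
  unfold Z
  rw [mul_eq_zero]
  exact ⟨fun h => h.resolve_left (phase_ne t), Or.inr⟩

lemma zeta_diff (t : ℝ) : DifferentiableAt ℂ riemannZeta (1 / 2 + I * t) := by
  refine differentiableAt_riemannZeta fun h => ?_
  have := congrArg Complex.re h
  norm_num at this

lemma Z_hasDerivAt (t : ℝ) (h : riemannZeta (1 / 2 + I * t) = 0) :
    HasDerivAt Z (phase t * (deriv riemannZeta (1 / 2 + I * t) * I)) t := by
  have hg : HasDerivAt (fun u : ℝ => riemannZeta (1 / 2 + I * u))
      (deriv riemannZeta (1 / 2 + I * t) * I) t := by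
    have h1 : HasDerivAt (fun u : ℝ => (1 / 2 + I * u : ℂ)) I t := by
      have h2 : HasDerivAt (fun u : ℝ => (u : ℂ)) 1 t := Complex.ofRealCLM.hasDerivAt
      simpa using (h2.const_mul I).const_add (1 / 2 : ℂ)
    exact HasDerivAt.comp (h₂ := riemannZeta) t (zeta_diff t).hasDerivAt h1
  rw [hasDerivAt_iff_tendsto_slope] at hg ⊢
  have h3 : Tendsto phase (𝓝[≠] t) (𝓝 (phase t)) :=
    phase_cont.continuousAt.tendsto.mono_left nhdsWithin_le_nhds
  refine (h3.mul hg).congr fun u => ?_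
  have hZ : Z t = 0 := (Z_zero_iff t).mpr h
  rw [slope_def_module, slope_def_module, hZ, h, sub_zero, sub_zero]
  unfold Z
  simp only [Complex.real_smul]
  ring

lemma zeta_analytic {s : ℂ} (hs : s ≠ 1) : AnalyticAt ℂ riemannZeta s := by
  have : DifferentiableOn ℂ riemannZeta ({1}ᶜ : Set ℂ) := fun z hz =>
    (differentiableAt_riemannZeta hz).differentiableWithinAt
  exact this.analyticAt (isOpen_compl_singleton.mem_nhds hs)

/-- a zero of `Z` is simple if the corresponding zero of zeta is simple -/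
lemma simple_of_order {t : ℝ} (h : riemannZeta (1 / 2 + I * t) = 0)
    (h1 : analyticOrderNatAt riemannZeta (1 / 2 + I * t) = 1) : deriv Z t ≠ 0 := by
  rw [(Z_hasDerivAt t h).deriv]
  refine mul_ne_zero (phase_ne t) (mul_ne_zero ?_ I_ne_zero)
  have hs : (1 / 2 + I * t : ℂ) ≠ 1 := by
    intro h
    have := congrArg Complex.re h
    norm_num at this
  have ha := zeta_analytic hs
  have h2 : analyticOrderAt riemannZeta (1 / 2 + I * t) = 1 := by
    unfold analyticOrderNatAt at h1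
    have h3 : analyticOrderAt riemannZeta (1 / 2 + I * t) ≠ ⊤ := by
      intro h4; rw [h4] at h1; simp at h1
    rw [← ENat.coe_toNat h3, h1]; rfl
  have h3 := ha.analyticOrderAt_deriv_add_one
  simp only [h, sub_zero] at h3
  rw [h2] at h3
  have h4 : analyticOrderAt (deriv riemannZeta) (1 / 2 + I * t) = 0 := by
    revert h3
    generalize analyticOrderAt (deriv riemannZeta) (1 / 2 + I * t) = x
    intro h3
    cases x with
    | top => simp at h3
    | coe n =>
      have h6 : n + 1 = 1 := by exact_mod_cast h3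
      have h7 : n = 0 := by omega
      rw [h7]; rfl
  exact ha.deriv.analyticOrderAt_eq_zero.mp h4

lemma zeros_eq (T : ℝ) : zeros T = H370.zset riemannZeta 0 T := by
  ext s
  simp only [zeros, H370.zset, Set.mem_ofPred_eq]
  tauto

/-- the set of nontrivial zeros up to height `T` is finite -/
theorem zeros_finite (T : ℝ) : (zeros T).Finite := by
  rw [zeros_eq]
  exact H370.zeta_zeros_finite T

lemma N_eq (T : ℝ) : N T = H370.NN riemannZeta 0 T := by
  unfold N H370.NN H370.mult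
  rw [zeros_eq]

lemma phase_norm (t : ℝ) : ‖phase t‖ = 1 := by
  unfold phase
  rw [norm_mul, norm_div, Complex.norm_real, norm_norm, div_self (norm_ne_zero_iff.mpr (gamma_ne t)),
    Complex.norm_exp, one_mul]
  have : (-(I * ((t : ℂ) / 2) * (Real.log Real.pi : ℂ))).re = 0 := by
    have e : -(I * ((t : ℂ) / 2) * (Real.log Real.pi : ℂ)) = ((-(t / 2 * Real.log Real.pi) : ℝ) : ℂ) * I := by
      push_cast; ring
    rw [e]
    simp
  rw [this, Real.exp_zero]

/-- the set of the zeros that are counted is finite -/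
theorem goodZeros_finite (U : Set ℂ) (δ T : ℝ) : (goodZeros U δ T).Finite := by
  have hinj : Function.Injective fun t : ℝ => (1 / 2 + I * t : ℂ) := by
    intro a b hab
    have := congrArg Complex.im hab
    simpa using this
  refine Set.Finite.of_finite_image ((zeros_finite T).subset ?_) hinj.injOn
  rintro s ⟨t, ⟨h1, h2, h3, h4⟩, rfl⟩
  refine ⟨(Z_zero_iff t).mp h3, ?_, ?_, ?_, ?_⟩ <;> simp <;> first | assumption | norm_num

/-- the number of the zeros up to height `1` -/
noncomputable def c0 : ℝ := (H370.NN riemannZeta 0 1 : ℝ)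

lemma NN_zero {t : ℝ} (ht : 1 ≤ t) :
    H370.NN riemannZeta 0 t = H370.NN riemannZeta 0 1 + H370.NN riemannZeta 1 t := by
  classical
  have f0 : (H370.zset riemannZeta 0 t).Finite := H370.zeta_zeros_finite t
  have f1 : (H370.zset riemannZeta 0 1).Finite := H370.zeta_zeros_finite 1
  have f2 : (H370.zset riemannZeta 1 t).Finite := f0.subset fun s hs =>
    ⟨hs.1, hs.2.1, lt_trans one_pos hs.2.2.1, hs.2.2.2.1, hs.2.2.2.2⟩
  have hu : H370.zset riemannZeta 0 t = H370.zset riemannZeta 0 1 ∪ H370.zset riemannZeta 1 t := by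
    ext s
    constructor
    · rintro ⟨h1, h2, h3, h4, h5⟩
      by_cases h : s.im ≤ 1
      · exact Or.inl ⟨h1, h2, h3, h, h5⟩
      · push Not at h
        exact Or.inr ⟨h1, h2, h, h4, h5⟩
    · rintro (⟨h1, h2, h3, h4, h5⟩ | ⟨h1, h2, h3, h4, h5⟩)
      · exact ⟨h1, h2, h3, h4.trans ht, h5⟩
      · exact ⟨h1, h2, lt_trans one_pos h3, h4, h5⟩
  have hd : Disjoint (H370.zset riemannZeta 0 1) (H370.zset riemannZeta 1 t) := by
    rw [Set.disjoint_left]
    intro s hs hs'
    exact absurd hs.2.2.2.1 (not_le.2 hs'.2.2.1)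
  unfold H370.NN
  rw [hu, finsum_mem_union hd f1 f2]

lemma E_eq {t : ℝ} (ht : 1 ≤ t) : Pool.Agent.K4H8.JG.E1 t + c0 = (N t : ℝ) - main t := by
  rw [N_eq, NN_zero ht]
  unfold Pool.Agent.K4H8.JG.E1 Pool.Agent.K4H8.JG.Em main c0
  push_cast
  ring

lemma sqrt_half (x : ℝ) (y : ℝ) : Real.sqrt 2 * (y / Real.sqrt x) = y / Real.sqrt (x / 2) := by
  rw [Real.sqrt_div' _ (by norm_num : (0:ℝ) ≤ 2), div_div_eq_mul_div]
  ring

lemma pair_eq {t : ℝ} (ht : 1 ≤ t) : Pool.Agent.K4H8.JG.nrm2 t (Real.log ‖deriv Z t‖)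
    (Pool.Agent.K4H8.JG.E1 t + c0) = ⟨X t, Y t⟩ := by
  unfold Pool.Agent.K4H8.JG.nrm2 Pool.Agent.Y745.SW.nrm X Y
  rw [E_eq ht, sqrt_half, sqrt_half]

lemma PQ_le (U : Set ℂ) (δ T : ℝ) :
    Pool.Agent.Y745.SW.PQn (Pool.Agent.K4H8.JG.Qs2 U c0 δ) 0 T ≤ (goodZeros U δ T).ncard := by
  unfold Pool.Agent.Y745.SW.PQn
  refine Set.ncard_le_ncard_of_injOn (fun s => s.im) ?_ ?_ (goodZeros_finite U δ T)
  · rintro s ⟨⟨h1, h2, h3, h4, h5⟩, h6, h7, h8, h9, h10⟩
    have hs : (1 / 2 + I * s.im : ℂ) = s := by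
      apply Complex.ext
      · simp [h6]
      · simp
    have hz : riemannZeta (1 / 2 + I * (s.im : ℂ)) = 0 := by rw [hs]; exact h5
    have hd : deriv Z s.im ≠ 0 := simple_of_order hz (by rw [hs]; exact h7)
    have hn : ‖deriv Z s.im‖ = ‖deriv riemannZeta s‖ := by
      rw [(Z_hasDerivAt s.im hz).deriv, norm_mul, norm_mul, phase_norm, Complex.norm_I, one_mul,
        mul_one, hs]
    refine ⟨h3, h4, (Z_zero_iff _).mpr hz, hd, ?_, ?_⟩
    · intro s' b1 b2 b3 b4
      rw [hs] at b4 ⊢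
      exact h9 s' b1 b2 b3 b4
    · rw [← pair_eq (by linarith : 1 ≤ s.im), hn]
      exact h10
  · rintro s ⟨-, h6, -⟩ s' ⟨-, h6', -⟩ h
    exact Complex.ext (h6.trans h6'.symm) h

theorem result : ∀ U : Set ℂ, IsOpen U → ∀ ε : ℝ, 0 < ε → ∃ δ : ℝ, 0 < δ ∧ ∃ T₀ : ℝ, ∀ T : ℝ, T₀ ≤ T →
    ((3 / 2 - Real.cot (1 / Real.sqrt 2) / Real.sqrt 2) * gauss U - ε) * (N T : ℝ) ≤
      ((goodZeros U δ T).ncard : ℝ) := by
  intro U hU ε hε
  obtain ⟨δ, hδ, X0, hX0⟩ := Pool.Agent.K4H8.JG.final2 c0 hU hε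
  refine ⟨δ, hδ, X0, fun T hT => ?_⟩
  rw [N_eq]
  have h1 := hX0 T hT
  have h2 : (Pool.Agent.Y745.SW.PQn (Pool.Agent.K4H8.JG.Qs2 U c0 δ) 0 T : ℝ) ≤ ((goodZeros U δ T).ncard : ℝ) := by
    exact_mod_cast PQ_le U δ T
  have h3 : (2 - H370.cMTinv) = 3 / 2 - Real.cot (1 / Real.sqrt 2) / Real.sqrt 2 := by
    unfold H370.cMTinv; ring
  rw [h3] at h1
  exact h1.trans h2

end Pool.Agent.Results.MP_6bc78b_nt.JointLaw
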