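import Pool.Agent.K4H6.Win.Fi
import Pool.Agent.K4H6.Win.Cr
import Pool.Agent.H370R2.DirGood

/-!
# Multiplicities of the zeros of zeta in almost all windows of bounded multiples of the mean spacing

Unconditionally, for every `ε > 0` there is `h₀` such that for all large `T` and every length `H ≥ h₀ / log T`, for all
windows `(t, t + H]` in `[T, 2T]` up to a set of `t` of measure `ε T`, the window contains the expected number of
nontrivial zeros up to a factor `1 ± ε`, at least `17/36 - ε` times as many distinct zeros, at least `5/12 - ε` times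
as many distinct zeros of multiplicity at most `2`, and the multiplicities satisfy a quadratic bound.
-/

open Filter Topology Complex MeasureTheory

namespace Pool.Agent.Results.MP_6bc78b_nt.MultiplicitiesInShortWindows

/-- the nontrivial zeros of zeta with imaginary part in `(t, t + H]` -/
def zeros (t H : ℝ) : Set ℂ :=
  {s : ℂ | riemannZeta s = 0 ∧ 0 < s.re ∧ s.re < 1 ∧ t < s.im ∧ s.im ≤ t + H}

/-- the multiplicity of a zero -/
noncomputable def mult (s : ℂ) : ℕ := analyticOrderNatAt riemannZeta s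

/-- the expected number of zeros in a window of length `H` at height `T` -/
noncomputable def expected (T H : ℝ) : ℝ := H * Real.log T / (2 * Real.pi)

/-- `m²` for `m ≤ 3`, continued by the tangent `6 m - 9` -/
noncomputable def phi (m : ℕ) : ℝ := if m ≤ 3 then (m : ℝ) ^ 2 else 6 * m - 9

/-- the window `(t, t + H]` behaves as expected up to `ε` -/
def Good (ε T H t : ℝ) : Prop :=
  (zeros t H).Finite ∧
  |∑ᶠ s ∈ zeros t H, (mult s : ℝ) - expected T H| ≤ ε * expected T H ∧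
  ∑ᶠ s ∈ zeros t H, phi (mult s) ≤ (13 / 6 + ε) * expected T H ∧
  (17 / 36 - ε) * expected T H ≤ (zeros t H).ncard ∧
  (5 / 12 - ε) * expected T H ≤ ({s | s ∈ zeros t H ∧ mult s ≤ 2} : Set ℂ).ncard ∧
  (RiemannHypothesis → ∑ᶠ s ∈ zeros t H, (mult s : ℝ) ^ 2 ≤ (13 / 6 + ε) * expected T H)

open Pool.Agent.K4H6.Win

lemma zeros_eq {U1 U2 t H : ℝ} (h1 : 1 ≤ U1) (h2 : U1 ≤ t) (h3 : t + H ≤ U2) :
    zeros t H = ↑((H370.Zf riemannZeta U1 U2).filter (fun s => t < s.im ∧ s.im ≤ t + H)) := by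
  ext s
  rw [Finset.mem_coe, Finset.mem_filter, H370.mem_Zf H370.good_zeta h1]
  constructor
  · rintro ⟨hs, hr, hr1, hi, hi2⟩
    exact ⟨⟨hr, hr1, by linarith, by linarith, hs⟩, hi, hi2⟩
  · rintro ⟨⟨hr, hr1, _, _, hs⟩, hi, hi2⟩
    exact ⟨hs, hr, hr1, hi, hi2⟩

lemma Gm_eq (f : ℕ → ℝ) {U1 U2 t H : ℝ} (h1 : 1 ≤ U1) (h2 : U1 ≤ t) (h3 : t + H ≤ U2) :
    ∑ᶠ s ∈ zeros t H, f (mult s) = Gm f U1 U2 H t := by
  rw [zeros_eq h1 h2 h3, finsum_mem_coe_finset, Finset.sum_filter]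
  rfl

lemma phi_eq : phi = ph := rfl

lemma distinct_le (m : ℕ) : 5 * (m : ℝ) - phi m ≤ 6 := by
  unfold phi
  split_ifs with h
  · interval_cases m <;> norm_num
  · push Not at h
    have : (4 : ℝ) ≤ m := by exact_mod_cast h
    linarith

lemma double_le (m : ℕ) : 3 * (m : ℝ) - phi m ≤ if m ≤ 2 then 2 else 0 := by
  unfold phi
  by_cases h : m ≤ 3
  · interval_cases m <;> norm_num
  · push Not at h
    have h4 : (4 : ℝ) ≤ m := by exact_mod_cast h
    rw [if_neg (by omega), if_neg (by omega)]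
    linarith

/-- the lower bounds for the numbers of zeros -/
lemma good_of {ε T H t U1 U2 : ℝ} (h1 : 1 ≤ U1) (h2 : U1 ≤ t) (h3 : t + H ≤ U2) (hE : 0 ≤ expected T H)
    (hε : 0 ≤ ε)
    (hN : |Gm (fun m => m) U1 U2 H t - expected T H| ≤ ε / 2 * expected T H)
    (hP : Gm ph U1 U2 H t ≤ (13 / 6 + ε / 2) * expected T H)
    (hR : RiemannHypothesis → Gm (fun m => (m:ℝ) ^ 2) U1 U2 H t ≤ (13 / 6 + ε / 2) * expected T H) :
    Good ε T H t := by
  classical
  have hz := zeros_eq h1 h2 h3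
  set F := (H370.Zf riemannZeta U1 U2).filter (fun s => t < s.im ∧ s.im ≤ t + H) with hF
  have hεE : 0 ≤ ε * expected T H := mul_nonneg hε hE
  have e1 : ∑ s ∈ F, (mult s : ℝ) = Gm (fun m => m) U1 U2 H t := by
    rw [← Gm_eq (fun m => (m : ℝ)) h1 h2 h3, hz, finsum_mem_coe_finset]
  have e2 : ∑ s ∈ F, phi (mult s) = Gm ph U1 U2 H t := by
    rw [← Gm_eq ph h1 h2 h3, hz, finsum_mem_coe_finset, phi_eq]
  have hlow : (1 - ε / 2) * expected T H ≤ Gm (fun m => m) U1 U2 H t := by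
    have := (abs_le.1 hN).1
    linarith
  refine ⟨?_, ?_, ?_, ?_, ?_, ?_⟩
  · rw [hz]; exact Finset.finite_toSet _
  · rw [Gm_eq (fun m => (m : ℝ)) h1 h2 h3]
    refine hN.trans ?_
    linarith
  · rw [Gm_eq phi h1 h2 h3, phi_eq]
    refine hP.trans ?_
    linarith
  · rw [hz, Set.ncard_coe_finset]
    have h4 : ∑ s ∈ F, (5 * (mult s : ℝ) - phi (mult s)) ≤ ∑ _s ∈ F, (6 : ℝ) :=
      Finset.sum_le_sum fun s _ => distinct_le (mult s)
    rw [Finset.sum_sub_distrib, ← Finset.mul_sum, e1, e2, Finset.sum_const, nsmul_eq_mul] at h4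
    linarith
  · have h5 : ({s | s ∈ zeros t H ∧ mult s ≤ 2} : Set ℂ) = ↑(F.filter (fun s => mult s ≤ 2)) := by
      ext s
      simp only [Set.mem_setOf_eq, hz, Finset.mem_coe, Finset.mem_filter]
    rw [h5, Set.ncard_coe_finset]
    have h4 : ∑ s ∈ F, (3 * (mult s : ℝ) - phi (mult s)) ≤ ∑ s ∈ F, (if mult s ≤ 2 then (2 : ℝ) else 0) :=
      Finset.sum_le_sum fun s _ => double_le (mult s)
    rw [Finset.sum_sub_distrib, ← Finset.mul_sum, e1, e2, ← Finset.sum_filter, Finset.sum_const,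
      nsmul_eq_mul] at h4
    linarith
  · intro hRH
    rw [Gm_eq (fun m => (m : ℝ) ^ 2) h1 h2 h3]
    refine (hR hRH).trans ?_
    linarith

lemma half_of_RH (hRH : RiemannHypothesis) {U1 U2 : ℝ} (h1 : 1 ≤ U1) :
    ∀ s ∈ H370.Zf riemannZeta U1 U2, s.re = 1 / 2 := by
  intro s hs
  obtain ⟨hr, hr1, _, _, hz⟩ := (H370.mem_Zf H370.good_zeta h1).mp hs
  refine hRH s hz ?_ ?_
  · rintro ⟨n, hn⟩
    have h2 := congrArg Complex.re hn
    have h3 : (-2 * ((n : ℂ) + 1)).re = -2 * ((n : ℝ) + 1) := by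
      simp
    rw [h3] at h2
    have : (0 : ℝ) ≤ n := Nat.cast_nonneg n
    linarith
  · intro h
    rw [h] at hr1
    simp at hr1

theorem result : ∀ ε : ℝ, 0 < ε → ∃ h₀ T₀ : ℝ, 0 < h₀ ∧ ∀ T : ℝ, T₀ ≤ T → ∀ H : ℝ, h₀ / Real.log T ≤ H →
    volume {t : ℝ | T ≤ t ∧ t + H ≤ 2 * T ∧ ¬ Good ε T H t} ≤ ENNReal.ofReal (ε * T) := by
  intro ε hε
  obtain ⟨e, he, he1, heε⟩ : ∃ e : ℝ, 0 < e ∧ e ≤ 1 ∧ e ≤ ε / 2 :=
    ⟨min 1 (ε / 2), lt_min one_pos (by positivity), min_le_left _ _, min_le_right _ _⟩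
  obtain ⟨h1, h1p, hA⟩ := winMain he he1
  obtain ⟨h2, h2p, hB⟩ := winR he he1
  have hlog := Real.tendsto_log_atTop
  have hll : ∀ᶠ T : ℝ in atTop, 6 * Real.log T ≤ ε / 4 * T := by
    have h1 := Real.isLittleO_log_id_atTop.def (c := ε / 24) (by positivity)
    filter_upwards [h1, eventually_ge_atTop 1] with T hT hT1
    rw [Real.norm_eq_abs, Real.norm_eq_abs, id, abs_of_pos (by linarith : 0 < T)] at hT
    have := le_abs_self (Real.log T)
    linarith
  obtain ⟨T0, hT0⟩ := Filter.eventually_atTop.1 (((((hA.and hB).and (hlog.eventually_ge_atTop 1)).and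
    (eventually_ge_atTop 10))).and hll)
  refine ⟨max h1 h2, T0, lt_max_of_lt_left h1p, fun T hT H hH => ?_⟩
  obtain ⟨⟨⟨⟨⟨U1, U2, hU1, hU1', hU2, hU2', gA⟩, ⟨V1, V2, hV1, hV1', hV2, hV2', gB⟩⟩, hL⟩, hT10⟩, hbig⟩ := hT0 T hT
  set L := Real.log T with hLd
  have hL0 : 0 < L := by linarith
  have hHA : h1 / L ≤ H := (div_le_div_of_nonneg_right (le_max_left h1 h2) hL0.le).trans hH
  have hHB : h2 / L ≤ H := (div_le_div_of_nonneg_right (le_max_right h1 h2) hL0.le).trans hH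
  have hH0 : 0 < H := lt_of_lt_of_le (by positivity) hHA
  have hE : 0 ≤ expected T H := by
    unfold expected
    have := Real.pi_pos
    positivity
  obtain ⟨B1, hB1, hB1'⟩ := gA H hHA
  obtain ⟨B2, hB2, hB2'⟩ : ∃ B2 : Set ℝ, volume B2 ≤ ENNReal.ofReal (e / 8 * T) ∧
      (RiemannHypothesis → ∀ t : ℝ, T + 3 * L ≤ t → t + H ≤ 2 * T - 3 * L → t ∉ B2 →
        Gm (fun m => (m:ℝ) ^ 2) V1 V2 H t ≤ (13 / 6 + e) * (H * L / (2 * Real.pi))) := by
    by_cases hRH : RiemannHypothesis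
    · obtain ⟨B2, h3, h4⟩ := gB (half_of_RH hRH (by linarith)) H hHB
      exact ⟨B2, h3, fun _ => h4⟩
    · exact ⟨∅, by simp, fun h => absurd h hRH⟩
  have hsub : {t : ℝ | T ≤ t ∧ t + H ≤ 2 * T ∧ ¬ Good ε T H t} ⊆
      (B1 ∪ B2) ∪ (Set.Icc T (T + 3 * L) ∪ Set.Icc (2 * T - 3 * L - H) (2 * T - H)) := by
    rintro t ⟨ht1, ht2, ht3⟩
    by_contra hcon
    simp only [Set.mem_union, Set.mem_Icc, not_or, not_and, not_le] at hcon
    obtain ⟨⟨hc1, hc2⟩, hc3, hc4⟩ := hcon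
    have hc3 := hc3 ht1
    have hc4' : t + H ≤ 2 * T - 3 * L := by
      by_contra hneg
      push Not at hneg
      have := hc4 (by linarith)
      linarith
    apply ht3
    obtain ⟨g1, g2⟩ := hB1' t hc3.le hc4' hc1
    have hEd : H * L / (2 * Real.pi) = expected T H := rfl
    rw [hEd] at g1 g2
    have hee : e * expected T H ≤ ε / 2 * expected T H := mul_le_mul_of_nonneg_right heε hE
    refine good_of (U1 := U1) (U2 := U2) (by linarith) (by linarith) (by linarith) hE hε.le (g1.trans hee)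
      (g2.trans (by linarith)) ?_
    intro hRH
    have g3 := hB2' hRH t hc3.le hc4' hc2
    rw [hEd] at g3
    rw [← Gm_eq (fun m => (m : ℝ) ^ 2) (U1 := V1) (U2 := V2) (by linarith) (by linarith) (by linarith),
      Gm_eq (fun m => (m : ℝ) ^ 2) (U1 := U1) (U2 := U2) (by linarith) (by linarith) (by linarith)] at g3
    exact g3.trans (by linarith)
  refine (measure_mono hsub).trans ?_
  have hT0' : 0 < T := by linarith
  have hv1 : volume (B1 ∪ B2) ≤ ENNReal.ofReal (3 / 4 * e * T) := by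
    refine (measure_union_le _ _).trans ((add_le_add hB1 hB2).trans ?_)
    rw [← ENNReal.ofReal_add (by positivity) (by positivity)]
    refine ENNReal.ofReal_le_ofReal ?_
    nlinarith [mul_pos he hT0']
  have hv2 : volume (Set.Icc T (T + 3 * L) ∪ Set.Icc (2 * T - 3 * L - H) (2 * T - H)) ≤
      ENNReal.ofReal (ε / 4 * T) := by
    refine (measure_union_le _ _).trans ?_
    rw [Real.volume_Icc, Real.volume_Icc, ← ENNReal.ofReal_add (by linarith) (by linarith)]
    exact ENNReal.ofReal_le_ofReal (by linarith)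
  refine (measure_union_le _ _).trans ((add_le_add hv1 hv2).trans ?_)
  rw [← ENNReal.ofReal_add (by positivity) (by positivity)]
  refine ENNReal.ofReal_le_ofReal ?_
  have h5 : e * T ≤ ε / 2 * T := mul_le_mul_of_nonneg_right heε hT0'.le
  have h6 : 0 ≤ ε * T := by positivity
  linarith

end Pool.Agent.Results.MP_6bc78b_nt.MultiplicitiesInShortWindows
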