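import Pool.Agent.K4H6.Qn.Fi
import Pool.Agent.K4H6.Qn.Bn
import Pool.Agent.H370R2.DirGood

/-!
# Simple zeros of Hardy's function in arbitrary sets of heights

Unconditionally: for `0 < σ ≤ 1` and `ε > 0` there are `δ, h₀ > 0` such that for all large `T`, every length
`H ≥ h₀ / log T` and every measurable set `S` of heights `t` in `[T, 2T]` of measure at least `σ T`, the mean over
`t ∈ S` of the number of simple zeros of `Z` in `(t, t + H]` which are isolated by `δ / log T` from all other zeros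
of zeta is at least `(2 - J(σ) - ε) H log T / 2π`. Here `J(3/4) ≤ 1.377`, `J(1/2) ≤ 1.468`, `J(1/4) ≤ 1.682`,
`J(1/8) ≤ 1.877` and `J(1/16) < 2`.
-/

open Filter Topology Complex MeasureTheory

namespace Pool.Agent.Results.MP_6bc78b_nt.SimpleZerosInSets

/-- the phase `exp (i ϑ(t))`, with `ϑ(t) = arg Γ(1/4 + i t / 2) - (t / 2) log π` -/
noncomputable def phase (t : ℝ) : ℂ :=
  Gamma (1 / 4 + I * t / 2) / ‖Gamma (1 / 4 + I * t / 2)‖ * cexp (-(I * (t / 2) * Real.log Real.pi))

/-- Hardy's function `Z(t) = exp (i ϑ(t)) ζ(1/2 + i t)` -/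
noncomputable def Z (t : ℝ) : ℂ := phase t * riemannZeta (1 / 2 + I * t)

/-- the simple real zeros `γ` of `Z` in `(t₁, t₂]` such that every nontrivial zero of zeta other than
`1/2 + iγ` has distance at least `d` from `1/2 + iγ` -/
def isolated (d t₁ t₂ : ℝ) : Set ℝ := {γ : ℝ | t₁ < γ ∧ γ ≤ t₂ ∧ Z γ = 0 ∧ deriv Z γ ≠ 0 ∧
  ∀ s : ℂ, riemannZeta s = 0 → 0 < s.re → s.re < 1 → s ≠ 1 / 2 + I * γ → d ≤ ‖s - (1 / 2 + I * γ)‖}

lemma gamma_ne (t : ℝ) : Gamma (1 / 4 + I * t / 2) ≠ 0 := by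
  apply Gamma_ne_zero_of_re_pos
  simp

lemma gamma_cont : Continuous fun t : ℝ => Gamma (1 / 4 + I * t / 2) := by
  rw [continuous_iff_continuousAt]
  intro t
  have h1 : ContinuousAt Gamma (1 / 4 + I * t / 2) := by
    refine (differentiableAt_Gamma _ fun m hm => ?_).continuousAt
    have := congrArg Complex.re hm
    simp at this
    have hm0 : (0 : ℝ) ≤ m := Nat.cast_nonneg m
    linarith
  exact ContinuousAt.comp (f := fun t : ℝ => (1 / 4 + I * t / 2 : ℂ)) h1 (by fun_prop)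

lemma phase_cont : Continuous phase := by
  unfold phase
  refine Continuous.mul (gamma_cont.div ?_ ?_) (by fun_prop)
  · exact Complex.continuous_ofReal.comp gamma_cont.norm
  · intro t
    rw [Complex.ofReal_ne_zero]
    exact norm_ne_zero_iff.mpr (gamma_ne t)

lemma phase_ne (t : ℝ) : phase t ≠ 0 := by
  unfold phase
  refine mul_ne_zero (div_ne_zero (gamma_ne t) ?_) (Complex.exp_ne_zero _)
  rw [Complex.ofReal_ne_zero]
  exact norm_ne_zero_iff.mpr (gamma_ne t)

lemma Z_zero_iff (t : ℝ) : Z t = 0 ↔ riemannZeta (1 / 2 + I * t) = 0 := by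
  unfold Z
  rw [mul_eq_zero]
  exact ⟨fun h => h.resolve_left (phase_ne t), Or.inr⟩

lemma zeta_diff (t : ℝ) : DifferentiableAt ℂ riemannZeta (1 / 2 + I * t) := by
  refine differentiableAt_riemannZeta fun h => ?_
  have := congrArg Complex.re h
  norm_num at this

lemma Z_hasDerivAt (t : ℝ) (h : riemannZeta (1 / 2 + I * t) = 0) :
    HasDerivAt Z (phase t * (deriv riemannZeta (1 / 2 + I * t) * I)) t := by
  have hg : HasDerivAt (fun u : ℝ => riemannZeta (1 / 2 + I * u))
      (deriv riemannZeta (1 / 2 + I * t) * I) t := by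
    have h1 : HasDerivAt (fun u : ℝ => (1 / 2 + I * u : ℂ)) I t := by
      have h2 : HasDerivAt (fun u : ℝ => (u : ℂ)) 1 t := Complex.ofRealCLM.hasDerivAt
      simpa using (h2.const_mul I).const_add (1 / 2 : ℂ)
    exact HasDerivAt.comp (h₂ := riemannZeta) t (zeta_diff t).hasDerivAt h1
  rw [hasDerivAt_iff_tendsto_slope] at hg ⊢
  have h3 : Tendsto phase (𝓝[≠] t) (𝓝 (phase t)) :=
    phase_cont.continuousAt.tendsto.mono_left nhdsWithin_le_nhds
  refine (h3.mul hg).congr fun u => ?_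
  have hZ : Z t = 0 := (Z_zero_iff t).mpr h
  rw [slope_def_module, slope_def_module, hZ, h, sub_zero, sub_zero]
  unfold Z
  simp only [Complex.real_smul]
  ring

lemma zeta_analytic {s : ℂ} (hs : s ≠ 1) : AnalyticAt ℂ riemannZeta s := by
  have : DifferentiableOn ℂ riemannZeta ({1}ᶜ : Set ℂ) := fun z hz =>
    (differentiableAt_riemannZeta hz).differentiableWithinAt
  exact this.analyticAt (isOpen_compl_singleton.mem_nhds hs)

/-- a zero of `Z` is simple if the corresponding zero of zeta is simple -/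
lemma simple_of_order {t : ℝ} (h : riemannZeta (1 / 2 + I * t) = 0)
    (h1 : analyticOrderNatAt riemannZeta (1 / 2 + I * t) = 1) : deriv Z t ≠ 0 := by
  rw [(Z_hasDerivAt t h).deriv]
  refine mul_ne_zero (phase_ne t) (mul_ne_zero ?_ I_ne_zero)
  have hs : (1 / 2 + I * t : ℂ) ≠ 1 := by
    intro h
    have := congrArg Complex.re h
    norm_num at this
  have ha := zeta_analytic hs
  have h2 : analyticOrderAt riemannZeta (1 / 2 + I * t) = 1 := by
    unfold analyticOrderNatAt at h1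
    have h3 : analyticOrderAt riemannZeta (1 / 2 + I * t) ≠ ⊤ := by
      intro h4; rw [h4] at h1; simp at h1
    rw [← ENat.coe_toNat h3, h1]; rfl
  have h3 := ha.analyticOrderAt_deriv_add_one
  simp only [h, sub_zero] at h3
  rw [h2] at h3
  have h4 : analyticOrderAt (deriv riemannZeta) (1 / 2 + I * t) = 0 := by
    revert h3
    generalize analyticOrderAt (deriv riemannZeta) (1 / 2 + I * t) = x
    intro h3
    cases x with
    | top => simp at h3
    | coe n =>
      have h6 : n + 1 = 1 := by exact_mod_cast h3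
      have h7 : n = 0 := by omega
      rw [h7]; rfl
  exact ha.deriv.analyticOrderAt_eq_zero.mp h4

lemma isolated_finite (d t₁ t₂ : ℝ) (h : 0 < t₁) : (isolated d t₁ t₂).Finite := by
  have hinj : Function.Injective fun t : ℝ => (1 / 2 + I * t : ℂ) := by
    intro a b hab
    have := congrArg Complex.im hab
    simpa using this
  refine Set.Finite.of_finite_image ((H370.zset_finite' H370.good_zeta t₁ t₂ h).subset ?_) hinj.injOn
  rintro s ⟨t, ⟨h1, h2, h3, -, -⟩, rfl⟩
  have h4 := (Z_zero_iff t).mp h3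
  simp only [H370.zset, Set.mem_setOf_eq]
  refine ⟨?_, ?_, ?_, ?_, h4⟩ <;> simp <;> first | assumption | norm_num

/-- the expected number of zeros in a window of length `H` at height `T` -/
noncomputable def expected (T H : ℝ) : ℝ := H * Real.log T / (2 * Real.pi)

/-- the length of the intersection of `[-h, h]` and `[s - k, s + k]` -/
noncomputable def overlap (h k s : ℝ) : ℝ := max 0 (min (min (2 * h) (2 * k)) (h + k - |s|))

/-- the convolution square of the function `∑ c i` times the indicator of `[-h i, h i]` -/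
noncomputable def square {n : ℕ} (h c : Fin n → ℝ) (s : ℝ) : ℝ :=
  ∑ i, ∑ j, c i * c j * overlap (h i) (h j) s

/-- the constant: `r(0) + 2 ∫ x r(x)` over `[0, 1/2]` plus `2/σ` times the integral over `[1/2, 1]`,
where `r` is the convolution square -/
noncomputable def J {n : ℕ} (h c : Fin n → ℝ) (σ : ℝ) : ℝ :=
  square h c 0 + 2 * (∫ x in (0:ℝ)..(1/2), x * square h c x) + 2 / σ * ∫ x in (1/2:ℝ)..1, x * square h c x

/-- nonnegative functions with integral one which are sums of centred boxes inside `[-1/2, 1/2]` -/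
def Weight {n : ℕ} (h c : Fin n → ℝ) : Prop :=
  (∀ i, 0 ≤ h i ∧ h i ≤ 1 / 2 ∧ 0 ≤ c i) ∧ ∑ i, c i * (2 * h i) = 1

/-- in every set of heights of measure at least `σ T` the mean number of isolated simple zeros in the windows is
at least `θ` times the expected number of all zeros, and outside a set of measure `σ T` each window contains at
least that many -/
def Law (σ θ : ℝ) : Prop :=
  ∃ δ h₀ T₀ : ℝ, 0 < δ ∧ 0 < h₀ ∧ ∀ T : ℝ, T₀ ≤ T → ∀ H : ℝ, h₀ / Real.log T ≤ H →
    (∀ S : Set ℝ, MeasurableSet S → S ⊆ {t : ℝ | T ≤ t ∧ t + H ≤ 2 * T} → σ * T ≤ volume.real S →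
      θ * expected T H * volume.real S ≤
        ∫ t in S, ((isolated (δ / Real.log T) t (t + H)).ncard : ℝ)) ∧
    volume {t : ℝ | T ≤ t ∧ t + H ≤ 2 * T ∧
      ((isolated (δ / Real.log T) t (t + H)).ncard : ℝ) < θ * expected T H} ≤ ENNReal.ofReal (σ * T)

open Pool.Agent.K4H6.Qn Pool.Agent.K4H6.Cov

/-- the heights in a block as a finite set of points of the critical line -/
noncomputable def pts (d T : ℝ) (hT : 0 < T) : Finset ℂ :=
  (isolated_finite d T (2 * T) hT).toFinset.image (fun γ : ℝ => (1 / 2 + I * γ : ℂ))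

lemma ncard_eq {d T H t : ℝ} (hT : 0 < T) (h1 : T ≤ t) (h2 : t + H ≤ 2 * T) :
    ((isolated d t (t + H)).ncard : ℝ) = Gi (pts d T hT) H t := by
  classical
  rw [Gi_card, Nat.cast_inj, ← Set.ncard_coe_finset]
  have hinj : Function.Injective fun γ : ℝ => (1 / 2 + I * γ : ℂ) := by
    intro a b hab
    have := congrArg Complex.im hab
    simpa using this
  rw [← Set.ncard_image_of_injective _ hinj]
  congr 1
  ext s
  rw [Finset.mem_coe, Finset.mem_filter, Set.mem_image]
  unfold pts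
  rw [Finset.mem_image]
  constructor
  · rintro ⟨γ, hγ, rfl⟩
    refine ⟨⟨γ, ?_, rfl⟩, ?_⟩
    · rw [Set.Finite.mem_toFinset]
      exact ⟨by linarith [hγ.1], by linarith [hγ.2.1], hγ.2.2⟩
    · have e : (1 / 2 + I * (γ : ℂ)).im = γ := by simp
      rw [e]
      exact ⟨hγ.1, hγ.2.1⟩
  · rintro ⟨⟨γ, hγ, rfl⟩, h3, h4⟩
    have e : (1 / 2 + I * (γ : ℂ)).im = γ := by simp
    rw [e] at h3 h4
    rw [Set.Finite.mem_toFinset] at hγ
    exact ⟨γ, ⟨h3, h4, hγ.2.2⟩, rfl⟩

open Pool.Agent.Y745.SW in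
/-- the isolated simple zeros in the middle of the block -/
lemma iso_le {T U1 U2 d H t : ℝ} (hT : 1 ≤ T) (hT0 : 0 < T) (hU1 : T ≤ U1) (hU1' : U1 ≤ T + 1)
    (hU2 : 2 * T - 1 ≤ U2) (hd : d ≤ 1 / 10) (h1 : T + 2 ≤ t) (h2 : t + H ≤ 2 * T - 2) :
    Gi (isoS U1 U2 d) H t ≤ Gi (pts d T hT0) H t := by
  classical
  rw [Gi_card, Gi_card, Nat.cast_le]
  refine Finset.card_le_card ?_
  intro s hs
  rw [Finset.mem_filter] at hs ⊢
  obtain ⟨hs1, hs2, hs3⟩ := hs
  refine ⟨?_, hs2, hs3⟩
  unfold isoS at hs1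
  rw [Finset.mem_filter] at hs1
  obtain ⟨hsZ, hre, hmul, hiso⟩ := hs1
  have hsz := (H370.mem_Zf H370.good_zeta (by linarith : 1 ≤ U1)).mp hsZ
  have hs' : (1 / 2 + I * s.im : ℂ) = s := by
    apply Complex.ext
    · simp [hre]
    · simp
  unfold pts
  rw [Finset.mem_image]
  refine ⟨s.im, ?_, hs'⟩
  rw [Set.Finite.mem_toFinset]
  refine ⟨by linarith, by linarith, ?_, ?_, ?_⟩
  · rw [Z_zero_iff, hs']; exact hsz.2.2.2.2
  · apply simple_of_order
    · rw [hs']; exact hsz.2.2.2.2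
    · rw [hs']; exact hmul
  · intro s' h5 h6 h7 h8
    rw [hs'] at h8 ⊢
    by_contra hcon
    push Not at hcon
    have h9 := (Complex.abs_im_le_norm _).trans_lt hcon
    rw [Complex.sub_im, abs_lt] at h9
    have h10 : s' ∈ H370.Zf riemannZeta U1 U2 :=
      (H370.mem_Zf H370.good_zeta (by linarith : 1 ≤ U1)).mpr
        ⟨h6, h7, by linarith [h9.1], by linarith [h9.2], h5⟩
    have h11 := hiso s' h10 h8
    rw [norm_sub_rev] at h11
    linarith

lemma square_eq {n : ℕ} (h c : Fin n → ℝ) : square h c = Rn h c := rfl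

/-- a trivial law -/
lemma law_neg {σ θ : ℝ} (hθ : θ ≤ 0) : Law σ θ := by
  refine ⟨1, 1, 2, one_pos, one_pos, fun T hT H hH => ?_⟩
  have hL : 0 < Real.log T := Real.log_pos (by linarith)
  have hH0 : 0 < H := lt_of_lt_of_le (by positivity) hH
  have hE : 0 ≤ expected T H := by
    unfold expected
    have := Real.pi_pos
    positivity
  have h1 : θ * expected T H ≤ 0 := mul_nonpos_of_nonpos_of_nonneg hθ hE
  refine ⟨fun S _ _ _ => ?_, ?_⟩
  · refine (mul_nonpos_of_nonpos_of_nonneg h1 measureReal_nonneg).trans ?_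
    exact integral_nonneg fun t => Nat.cast_nonneg _
  · have h2 : {t : ℝ | T ≤ t ∧ t + H ≤ 2 * T ∧
        ((isolated (1 / Real.log T) t (t + H)).ncard : ℝ) < θ * expected T H} = ∅ := by
      ext t
      simp only [Set.mem_setOf_eq, Set.mem_empty_iff_false, iff_false, not_and, not_lt]
      intro _ _
      exact h1.trans (Nat.cast_nonneg _)
    rw [h2]
    simp

/-- smaller constants -/
lemma Law.mono {σ θ θ' : ℝ} (h : Law σ θ) (hθ : θ' ≤ θ) : Law σ θ' := by
  obtain ⟨δ, h0, T0, hδ, hh0, hmain⟩ := h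
  refine ⟨δ, h0, max T0 2, hδ, hh0, fun T hT H hH => ?_⟩
  obtain ⟨h1, h2⟩ := hmain T ((le_max_left _ _).trans hT) H hH
  have hL : 0 < Real.log T := Real.log_pos (by linarith [(le_max_right T0 2).trans hT])
  have hH0 : 0 < H := lt_of_lt_of_le (by positivity) hH
  have hE : 0 ≤ expected T H := by
    unfold expected
    have := Real.pi_pos
    positivity
  have h3 : θ' * expected T H ≤ θ * expected T H := mul_le_mul_of_nonneg_right hθ hE
  refine ⟨fun S hS hSI hSv => ?_, ?_⟩
  · exact (mul_le_mul_of_nonneg_right h3 measureReal_nonneg).trans (h1 S hS hSI hSv)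
  · refine (measure_mono ?_).trans h2
    rintro t ⟨ht1, ht2, ht3⟩
    exact ⟨ht1, ht2, ht3.trans_le h3⟩

theorem law_of {n : ℕ} {h c : Fin n → ℝ} (hb : Weight h c) {σ ε : ℝ} (hσ : 0 < σ) (hσ1 : σ ≤ 1) (hε : 0 < ε) :
    Law σ (2 - J h c σ - ε) := by
  have hB : BoxSum h c := ⟨fun i => (hb.1 i).1, fun i => (hb.1 i).2.1, fun i => (hb.1 i).2.2, hb.2⟩
  have hker := ker_n hB
  have hRc := hker.rcont
  have hhalf0 : 0 ≤ ∫ x in (1/2:ℝ)..1, x * Rn h c x :=
    intervalIntegral.integral_nonneg (by norm_num) fun x hx => mul_nonneg (by linarith [hx.1]) (hker.rnonneg x)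
  have hlow0 : 0 ≤ ∫ x in (0:ℝ)..(1/2), x * Rn h c x :=
    intervalIntegral.integral_nonneg (by norm_num) fun x hx => mul_nonneg hx.1 (hker.rnonneg x)
  have hsplit : (∫ x in (0:ℝ)..1, x * Rn h c x) - ∫ x in (1/2:ℝ)..1, x * Rn h c x =
      ∫ x in (0:ℝ)..(1/2), x * Rn h c x := by
    rw [← intervalIntegral.integral_add_adjacent_intervals (a := (0:ℝ)) (b := 1/2) (c := 1)
      (Continuous.intervalIntegrable (by fun_prop) _ _) (Continuous.intervalIntegrable (by fun_prop) _ _)]
    ring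
  obtain ⟨R0, hR0⟩ : ∃ R0 : ℝ, R0 = Rn h c 0 := ⟨_, rfl⟩
  obtain ⟨I1, hI1⟩ : ∃ I1 : ℝ, I1 = ∫ x in (0:ℝ)..(1/2), x * Rn h c x := ⟨_, rfl⟩
  obtain ⟨I2, hI2⟩ : ∃ I2 : ℝ, I2 = ∫ x in (1/2:ℝ)..1, x * Rn h c x := ⟨_, rfl⟩
  have hJ : J h c σ = R0 + 2 * I1 + 2 / σ * I2 := by
    unfold J
    rw [square_eq, ← hR0, ← hI1, ← hI2]
  by_cases hR : 2 < R0
  · refine law_neg ?_
    have h1 : 0 ≤ 2 / σ * I2 := mul_nonneg (by positivity) (by rw [hI2]; exact hhalf0)
    have h2 : 0 ≤ I1 := by rw [hI1]; exact hlow0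
    rw [hJ]
    linarith
  push Not at hR
  have hRi : (∫ x in (0:ℝ)..1, x * Rn h c x) ≤ 1 / 2 := (Rn_int_le hB).trans (by norm_num)
  obtain ⟨e, he, he1, heε⟩ : ∃ e : ℝ, 0 < e ∧ e ≤ 1 / 20 ∧ 2 * e ≤ ε * σ :=
    ⟨min (1 / 20) (ε * σ / 2), by positivity, min_le_left _ _, by
      have := min_le_right (1 / 20) (ε * σ / 2)
      linarith⟩
  obtain ⟨δ, h0, hδ, hδ1, hh0, hmain⟩ := arbS hker (by rw [← hR0]; exact hR) hRi he he1
  have hlog := Real.tendsto_log_atTop
  have hll : ∀ᶠ T : ℝ in atTop, 4 * (Real.log T + 2) ≤ e * T := by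
    have h1 := Real.isLittleO_log_id_atTop.def (c := e / 8) (by positivity)
    filter_upwards [h1, eventually_ge_atTop (16 / e), eventually_ge_atTop 1] with T hT hT2 hT1
    rw [Real.norm_eq_abs, Real.norm_eq_abs, id, abs_of_pos (by linarith : 0 < T)] at hT
    rw [div_le_iff₀ he] at hT2
    have := le_abs_self (Real.log T)
    linarith
  obtain ⟨T0, hT0⟩ := Filter.eventually_atTop.1 (((hmain.and (hlog.eventually_ge_atTop 1)).and
    (eventually_ge_atTop 10)).and hll)
  refine ⟨δ, h0, T0, hδ, hh0, fun T hT H hH => ?_⟩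
  obtain ⟨⟨⟨⟨U1, U2, hU1, hU1', hU2, hU2', hmn⟩, hL⟩, hT10⟩, hbig⟩ := hT0 T hT
  have hTp : 0 < T := by linarith
  set L := Real.log T with hLd
  have hL0 : 0 < L := by linarith
  have hH0 : 0 < H := lt_of_lt_of_le (by positivity) hH
  have hdL : δ / L ≤ 1 / 10 := by
    rw [div_le_iff₀ hL0]; nlinarith
  have hE : 0 ≤ expected T H := by
    unfold expected
    have := Real.pi_pos
    positivity
  have havg : ∀ S : Set ℝ, MeasurableSet S → S ⊆ {t : ℝ | T ≤ t ∧ t + H ≤ 2 * T} → σ * T ≤ volume.real S →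
      (2 - J h c σ - ε) * expected T H * volume.real S ≤
        ∫ t in S, ((isolated (δ / L) t (t + H)).ncard : ℝ) := by
    intro S hS hSI hSv
    have hSf : volume S ≠ ⊤ := ne_top_of_le_ne_top (by simp : volume (Set.Icc T (2 * T)) ≠ ⊤)
      (measure_mono fun t ht => ⟨(hSI ht).1, by linarith [(hSI ht).2]⟩)
    have e1 : ∫ t in S, ((isolated (δ / L) t (t + H)).ncard : ℝ) = ∫ t in S, Gi (pts (δ / L) T hTp) H t :=
      setIntegral_congr_fun hS fun t ht => ncard_eq hTp (hSI ht).1 (hSI ht).2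
    rw [e1]
    set I0 : Set ℝ := Set.Icc (T + (L + 2)) (2 * T - (L + 2) - H) with hI0
    set S' := S ∩ I0 with hS'
    have hS'm : MeasurableSet S' := hS.inter measurableSet_Icc
    have hS'f : volume S' ≠ ⊤ := ne_top_of_le_ne_top hSf (measure_mono Set.inter_subset_left)
    have h1 : ∫ t in S', Gi (pts (δ / L) T hTp) H t ≤ ∫ t in S, Gi (pts (δ / L) T hTp) H t :=
      setIntegral_mono_set (Gi_int _ _ hSf) (Filter.Eventually.of_forall fun t => Gi_nonneg _ _ _)
        (Filter.Eventually.of_forall Set.inter_subset_left)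
    have h2 : ∫ t in S', Gi (Pool.Agent.Y745.SW.isoS U1 U2 (δ / L)) H t ≤ ∫ t in S', Gi (pts (δ / L) T hTp) H t :=
      setIntegral_mono_on (Gi_int _ _ hS'f) (Gi_int _ _ hS'f) hS'm fun t ht =>
        iso_le (by linarith) hTp hU1 hU1' hU2 hdL (by linarith [ht.2.1]) (by linarith [ht.2.2])
    have h3 := hmn H hH S' hS'm (fun t ht => ⟨by linarith [ht.2.1], by linarith [ht.2.2]⟩)
    rw [hsplit, ← hR0, ← hI1, ← hI2] at h3
    have hvol : volume.real S ≤ volume.real S' + 2 * (L + 2) := by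
      have h4 : S ⊆ S' ∪ (Set.Icc T (T + (L + 2)) ∪ Set.Icc (2 * T - (L + 2) - H) (2 * T - H)) := by
        intro t ht
        have h5 := hSI ht
        by_cases h6 : t ∈ I0
        · exact Or.inl ⟨ht, h6⟩
        · right
          rw [hI0, Set.mem_Icc, not_and_or, not_le, not_le] at h6
          rcases h6 with h6 | h6
          · exact Or.inl ⟨h5.1, h6.le⟩
          · exact Or.inr ⟨h6.le, by linarith [h5.2]⟩
      have h5 := measureReal_mono (μ := volume) h4 (by
        refine (measure_union_lt_top (lt_top_iff_ne_top.2 hS'f) ?_).ne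
        exact measure_union_lt_top (by simp) (by simp))
      refine h5.trans ((measureReal_union_le _ _).trans (add_le_add le_rfl ?_))
      refine (measureReal_union_le _ _).trans ?_
      rw [Real.volume_real_Icc_of_le (by linarith), Real.volume_real_Icc_of_le (by linarith)]
      linarith
    have hvol2 : volume.real S' ≤ volume.real S := measureReal_mono Set.inter_subset_left hSf
    have hI20 : 0 ≤ I2 := by rw [hI2]; exact hhalf0
    have hI10 : 0 ≤ I1 := by rw [hI1]; exact hlow0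
    have hR00 : 0 ≤ R0 := by rw [hR0]; exact hker.rnonneg 0
    obtain ⟨V, hV⟩ : ∃ V : ℝ, V = volume.real S := ⟨_, rfl⟩
    obtain ⟨V', hV'⟩ : ∃ V' : ℝ, V' = volume.real S' := ⟨_, rfl⟩
    rw [← hV, ← hV'] at hvol hvol2
    rw [← hV] at hSv
    rw [← hV]
    rw [← hV'] at h3
    have hEd : H * L / (2 * Real.pi) = expected T H := rfl
    rw [hEd] at h3
    have k1 : V * (2 - R0 - 2 * I1) - e * T ≤ V' * (2 - R0 - 2 * I1) := by
      rcases le_total 0 (2 - R0 - 2 * I1) with ha | ha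
      · have k2 : (V - 2 * (L + 2)) * (2 - R0 - 2 * I1) ≤ V' * (2 - R0 - 2 * I1) :=
          mul_le_mul_of_nonneg_right (by linarith) ha
        have k3 : 2 * (L + 2) * (2 - R0 - 2 * I1) ≤ 2 * (L + 2) * 2 :=
          mul_le_mul_of_nonneg_left (by linarith) (by linarith)
        linarith
      · have k2 : V * (2 - R0 - 2 * I1) ≤ V' * (2 - R0 - 2 * I1) := mul_le_mul_of_nonpos_right hvol2 ha
        have : 0 ≤ e * T := by positivity
        linarith
    have k4 : V * (2 - J h c σ - ε) ≤ V' * (2 - R0 - 2 * I1) - T * (2 * I2 + e) := by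
      have k5 : T * (2 * I2 + 2 * e) ≤ V * ((2 * I2 + ε * σ) / σ) := by
        have k6 : T ≤ V / σ := by rw [le_div_iff₀ hσ]; linarith
        calc T * (2 * I2 + 2 * e) ≤ V / σ * (2 * I2 + ε * σ) :=
              mul_le_mul k6 (by linarith) (by positivity) (div_nonneg (by rw [hV]; exact measureReal_nonneg) hσ.le)
          _ = _ := by ring
      have k7 : (2 * I2 + ε * σ) / σ = 2 / σ * I2 + ε := by field_simp
      rw [k7] at k5
      rw [hJ]
      linarith
    calc (2 - J h c σ - ε) * expected T H * V = V * (2 - J h c σ - ε) * expected T H := by ring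
      _ ≤ (V' * (2 - R0 - 2 * I1) - T * (2 * I2 + e)) * expected T H := mul_le_mul_of_nonneg_right k4 hE
      _ ≤ _ := h3
      _ ≤ _ := h2
      _ ≤ _ := h1
  refine ⟨havg, ?_⟩
  set θ := 2 - J h c σ - ε with hθ
  set W : Set ℝ := {t : ℝ | T ≤ t ∧ t + H ≤ 2 * T ∧
    ((isolated (δ / L) t (t + H)).ncard : ℝ) < θ * expected T H} with hW
  have hWe : W = Set.Icc T (2 * T - H) ∩ {t : ℝ | Gi (pts (δ / L) T hTp) H t < θ * expected T H} := by
    ext t
    constructor
    · rintro ⟨h1, h2, h3⟩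
      rw [ncard_eq hTp h1 h2] at h3
      exact ⟨⟨h1, by linarith⟩, h3⟩
    · rintro ⟨⟨h1, h2⟩, h3⟩
      refine ⟨h1, by linarith, ?_⟩
      rw [ncard_eq hTp h1 (by linarith)]
      exact h3
  have hWm : MeasurableSet W := by
    rw [hWe]
    exact measurableSet_Icc.inter (measurableSet_lt (Gi_meas _ _) measurable_const)
  have hWf : volume W ≠ ⊤ := by
    rw [hWe]
    exact ne_top_of_le_ne_top (by simp) (measure_mono Set.inter_subset_left)
  by_contra hcon
  push Not at hcon
  have hWv : σ * T < volume.real W := by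
    have h1 := (ENNReal.ofReal_lt_iff_lt_toReal (by positivity) hWf).1 hcon
    exact h1
  have h1 := havg W hWm (fun t ht => ⟨ht.1, ht.2.1⟩) hWv.le
  have hWp : 0 < volume.real W := lt_of_le_of_lt (by positivity) hWv
  have e1 : ∫ t in W, ((isolated (δ / L) t (t + H)).ncard : ℝ) = ∫ t in W, Gi (pts (δ / L) T hTp) H t :=
    setIntegral_congr_fun hWm fun t ht => ncard_eq hTp ht.1 ht.2.1
  rw [e1] at h1
  -- strict inequality
  have h2 : 0 < ∫ t in W, (θ * expected T H - Gi (pts (δ / L) T hTp) H t) := by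
    have hi : IntegrableOn (fun t => θ * expected T H - Gi (pts (δ / L) T hTp) H t) W :=
      (integrableOn_const hWf).sub (Gi_int _ _ hWf)
    have h0 : 0 ≤ᵐ[volume.restrict W] fun t => θ * expected T H - Gi (pts (δ / L) T hTp) H t := by
      refine (ae_restrict_iff' hWm).2 (Filter.Eventually.of_forall fun t ht => ?_)
      rw [hWe] at ht
      have := ht.2
      simp only [Pi.zero_apply, sub_nonneg]
      exact le_of_lt this
    rw [setIntegral_pos_iff_support_of_nonneg_ae h0 hi]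
    refine lt_of_lt_of_le ?_ (measure_mono (show W ⊆ Function.support
      (fun t => θ * expected T H - Gi (pts (δ / L) T hTp) H t) ∩ W from fun t ht => ⟨?_, ht⟩))
    · exact (ENNReal.toReal_pos_iff.1 hWp).1
    · rw [hWe] at ht
      have := ht.2
      rw [Function.mem_support]
      exact ne_of_gt (sub_pos.2 this)
  have hc : Integrable (fun _ : ℝ => θ * expected T H) (volume.restrict W) := integrableOn_const hWf
  rw [integral_sub hc (Gi_int _ _ hWf), setIntegral_const, smul_eq_mul] at h2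
  linarith

/-! ### numerical values -/

lemma J_eq {n : ℕ} {h c : Fin n → ℝ} (hb : Weight h c) (σ : ℝ) : J h c σ =
    ∑ i, ∑ j, c i * c j * (trap (h i) (h j) 0 + 2 * (Af (h i) (h j) - Bf (h i) (h j)) + 2 / σ * Bf (h i) (h j)) := by
  have hB : BoxSum h c := ⟨fun i => (hb.1 i).1, fun i => (hb.1 i).2.1, fun i => (hb.1 i).2.2, hb.2⟩
  have hRc : Continuous (Rn h c) := Rn_cont
  have hsplit : ∫ x in (0:ℝ)..(1/2), x * Rn h c x =
      (∫ x in (0:ℝ)..1, x * Rn h c x) - ∫ x in (1/2:ℝ)..1, x * Rn h c x := by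
    rw [← intervalIntegral.integral_add_adjacent_intervals (a := (0:ℝ)) (b := 1/2) (c := 1)
      (Continuous.intervalIntegrable (by fun_prop) _ _) (Continuous.intervalIntegrable (by fun_prop) _ _)]
    ring
  unfold J
  rw [square_eq, hsplit, xRn_int, xRn_int]
  have e1 : ∀ i j : Fin n, ∫ x in (0:ℝ)..1, x * trap (h i) (h j) x = Af (h i) (h j) := fun i j =>
    full (hB.h0 i) (hB.h0 j) (by linarith [hB.h1 i, hB.h1 j])
  have e2 : ∀ i j : Fin n, ∫ x in (1/2:ℝ)..1, x * trap (h i) (h j) x = Bf (h i) (h j) := fun i j =>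
    half (hB.h0 i) (hB.h0 j) (hB.h1 i) (hB.h1 j)
  simp_rw [e1, e2]
  unfold Rn
  rw [← Finset.sum_sub_distrib, Finset.mul_sum, Finset.mul_sum, ← Finset.sum_add_distrib,
    ← Finset.sum_add_distrib]
  refine Finset.sum_congr rfl fun i _ => ?_
  rw [← Finset.sum_sub_distrib, Finset.mul_sum, Finset.mul_sum, ← Finset.sum_add_distrib,
    ← Finset.sum_add_distrib]
  refine Finset.sum_congr rfl fun j _ => ?_
  ring

lemma law_num {n : ℕ} {h c : Fin n → ℝ} (hb : Weight h c) {σ θ : ℝ} (hσ : 0 < σ) (hσ1 : σ ≤ 1)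
    (hJ : ∑ i, ∑ j, c i * c j * (trap (h i) (h j) 0 + 2 * (Af (h i) (h j) - Bf (h i) (h j)) +
      2 / σ * Bf (h i) (h j)) < 2 - θ) : Law σ θ := by
  rw [← J_eq hb] at hJ
  have h1 := law_of hb hσ hσ1 (ε := 2 - J h c σ - θ) (by linarith)
  have e : 2 - J h c σ - (2 - J h c σ - θ) = θ := by ring
  rwa [e] at h1

/-- the half widths of four boxes -/
noncomputable def b4 : Fin 4 → ℝ := ![5 / 24, 1 / 3, 5 / 12, 1 / 2]

/-- the half widths of four boxes -/
noncomputable def b4' : Fin 4 → ℝ := ![5 / 24, 7 / 24, 1 / 3, 3 / 8]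

/-- **simple zeros in arbitrary sets of heights** -/
theorem result :
    (∀ (n : ℕ) (h c : Fin n → ℝ), Weight h c → ∀ σ ε : ℝ, 0 < σ → σ ≤ 1 → 0 < ε →
      Law σ (2 - J h c σ - ε)) ∧
    Law (3 / 4) 0.623 ∧ Law (1 / 2) 0.532 ∧ Law (1 / 4) 0.318 ∧ Law (1 / 8) 0.123 ∧ Law (1 / 16) 0.0006 := by
  refine ⟨fun n h c hb σ ε h0 h1 h2 => law_of hb h0 h1 h2, ?_, ?_, ?_, ?_, ?_⟩
  · refine law_num (h := b4) (c := ![12 / 119, 12 / 119, 12 / 119, 96 / 119]) ⟨?_, ?_⟩ (by norm_num) (by norm_num) ?_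
    · intro i; unfold b4; fin_cases i <;> norm_num
    · unfold b4; simp [Fin.sum_univ_succ]; norm_num
    · unfold b4 trap Af Bf
      simp only [Fin.sum_univ_succ, Finset.univ_eq_empty, Finset.sum_empty]
      norm_num [Fin.succ, abs_of_nonneg, abs_of_nonpos]
  · refine law_num (h := b4) (c := ![12 / 71, 12 / 71, 12 / 71, 48 / 71]) ⟨?_, ?_⟩ (by norm_num) (by norm_num) ?_
    · intro i; unfold b4; fin_cases i <;> norm_num
    · unfold b4; simp [Fin.sum_univ_succ]; norm_num
    · unfold b4 trap Af Bf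
      simp only [Fin.sum_univ_succ, Finset.univ_eq_empty, Finset.sum_empty]
      norm_num [Fin.succ, abs_of_nonneg, abs_of_nonpos]
  · refine law_num (h := b4) (c := ![12 / 35, 12 / 35, 12 / 35, 12 / 35]) ⟨?_, ?_⟩ (by norm_num) (by norm_num) ?_
    · intro i; unfold b4; fin_cases i <;> norm_num
    · unfold b4; simp [Fin.sum_univ_succ]; norm_num
    · unfold b4 trap Af Bf
      simp only [Fin.sum_univ_succ, Finset.univ_eq_empty, Finset.sum_empty]
      norm_num [Fin.succ, abs_of_nonneg, abs_of_nonpos]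
  · refine law_num (h := b4') (c := ![12 / 29, 12 / 29, 12 / 29, 12 / 29]) ⟨?_, ?_⟩ (by norm_num) (by norm_num) ?_
    · intro i; unfold b4'; fin_cases i <;> norm_num
    · unfold b4'; simp [Fin.sum_univ_succ]; norm_num
    · unfold b4' trap Af Bf
      simp only [Fin.sum_univ_succ, Finset.univ_eq_empty, Finset.sum_empty]
      norm_num [Fin.succ, abs_of_nonneg, abs_of_nonpos]
  · have hw8 : Weight hw (fun _ : Fin 8 => (30 / 131 : ℝ)) := by
      refine ⟨fun i => ⟨hw_pos i, by linarith [hw_le i], by norm_num⟩, ?_⟩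
      rw [← Finset.mul_sum, hw_sum]
      norm_num
    refine law_num (h := hw) (c := fun _ => 30 / 131) hw8 (by norm_num) (by norm_num) ?_
    unfold trap Af Bf hw
    simp only [Fin.sum_univ_succ, Finset.univ_eq_empty, Finset.sum_empty]
    norm_num [Fin.succ, abs_of_nonneg, abs_of_nonpos]

end Pool.Agent.Results.MP_6bc78b_nt.SimpleZerosInSets
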